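import Mathlib
import Pool.Graph.R_seed8.Helper292.SP.Lang

/-!
# Weakly compact cardinals, Cohen forcing, and square compactness in the forcing language

A sentence of the forcing language is the set of the conditions which force it (the connectives
and quantifiers are those of `Pool.Agent.Helper292.SP.Lang`).  The point `x` belongs to the named
subset `A` of the ground model set `X` iff the generic filter meets the set `A x`.  Every set of
the extension is the image of a set of the ground model, so it suffices to speak of topologies on
sets `X` of the ground model, of bases indexed by sets of the ground model, and of families of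
subsets indexed by sets of the ground model.
-/

set_option autoImplicit false

namespace Pool.Agent.H637.SqC

open Cardinal Set Pool.Agent.Helper292.SP

/-- `T` is a tree of height `κ` all of whose levels have cardinality less than `κ`, and `ht` is its
height function: every element of height `α` has exactly one predecessor of each height `β < α`,
the predecessors of an element are linearly ordered, and there are elements of each height
`β < κ`. -/
structure IsKTree (κ : Cardinal.{0}) (T : Type) [PartialOrder T] (ht : T → κ.ord.ToType) :
    Prop where
  lt : ∀ s t : T, s < t → ht s < ht t
  pred : ∀ t : T, ∀ β < ht t, ∃ s < t, ht s = β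
  comp : ∀ s s' t : T, s < t → s' < t → s ≤ s' ∨ s' ≤ s
  level : ∀ β, ∃ t, ht t = β
  small : ∀ β, #{t | ht t = β} < κ

/-- The tree property: every tree of height `κ` with levels of cardinality less than `κ` has a
branch of length `κ`. -/
def TreeProperty (κ : Cardinal.{0}) : Prop :=
  ∀ (T : Type) (_ : PartialOrder T) (ht : T → κ.ord.ToType), IsKTree κ T ht →
    ∃ b : κ.ord.ToType → T, StrictMono b ∧ ∀ β, ht (b β) = β

/-- `κ` is weakly compact: an uncountable strongly inaccessible cardinal with the tree
property. -/
def IsWeaklyCompact (κ : Cardinal.{0}) : Prop :=
  ℵ₀ < κ ∧ κ.IsRegular ∧ κ.IsStrongLimit ∧ TreeProperty κ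

/-- Cohen forcing for adding one real: finite sequences of zeros and ones, where longer sequences
are stronger conditions. -/
structure Cohen where
  l : List Bool

instance : Preorder Cohen where
  le q p := p.l <+: q.l
  le_refl p := List.prefix_refl p.l
  le_trans _ _ _ h h' := h'.trans h

section

variable {P : Type} [Preorder P]

/-- The family of the subsets `E j`, `j ∈ J`, is a base of a topology on `X`. -/
def BaseN {J X : Type} (E : J → X → Set P) : Set P :=
  fand (fall fun x => fex fun j => meets (E j x))
    (fall fun j => fall fun j' => fall fun x =>
      fimp (fand (meets (E j x)) (meets (E j' x)))
        (fex fun i => fand (meets (E i x))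
          (fall fun y => fimp (meets (E i y)) (fand (meets (E j y)) (meets (E j' y))))))

/-- The subset `F` of `X` is open in the topology with the base `E`. -/
def OpenN {J X : Type} (E : J → X → Set P) (F : X → Set P) : Set P :=
  fall fun x => fimp (meets (F x))
    (fex fun j => fand (meets (E j x)) (fall fun y => fimp (meets (E j y)) (meets (F y))))

/-- The topology on `X` with the base `E` is `κ`-compact, where `K` is a well-ordered set of the
order type `κ`: for every family `F i`, `i ∈ I`, of open sets which covers `X` there is a function
`R` from a proper initial segment of `K` to `I` such that the sets `F i` for `i` in the range of `R`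
cover `X`. -/
def CompactN (K : Type) [LinearOrder K] {J X : Type} (E : J → X → Set P) : Set P :=
  fall fun I : Type => fall fun F : I → X → Set P =>
    fimp (fand (fall fun i => OpenN E (F i)) (fall fun x => fex fun i => meets (F i x)))
      (fex fun b : K => fex fun R : Iio b → I → Set P => fand (IsFun R)
        (fall fun x => fex fun t => fex fun i => fand (meets (R t i)) (meets (F i x))))

/-- The base of the product topology on `X × X` which belongs to the base `E` of a topology on
`X`: the set with the index `(j, j')` is the product of the sets with the indices `j` and `j'`. -/
def prodN {J X : Type} (E : J → X → Set P) : J × J → X × X → Set P :=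
  fun j x => fand (meets (E j.1 x.1)) (meets (E j.2 x.2))

variable (P)

/-- In the extension, for every space `X` with a base indexed by `M`: if `X` is `κ`-compact, then
`X × X` is `κ`-compact.  Here `K` is a well-ordered set of the order type `κ`.  If `M` has the
cardinality `μ`, then this says that `κ` is `μ`-square compact. -/
def SquareCompactN (K : Type) [LinearOrder K] (M : Type) : Set P :=
  fall fun X : Type => fall fun E : M → X → Set P =>
    fimp (fand (BaseN E) (CompactN K E)) (CompactN K (prodN E))

end

end Pool.Agent.H637.SqC
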