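import Mathlib

/-!
# The filter property
-/

set_option autoImplicit false

namespace Pool.Agent.H637.SqC

open Cardinal Set

/-- The filter property of a well-ordered set `L`: for each family of subsets of `L` indexed by `L`
there is a proper filter on `L` containing all final segments, deciding all sets of the family, and
closed under intersections of families indexed by proper initial segments of `L`. -/
def FP (L : Type) [LinearOrder L] : Prop :=
  ∀ T : L → Set L, ∃ D : Filter L, D.NeBot ∧ (∀ b, Ioi b ∈ D) ∧ (∀ j, T j ∈ D ∨ (T j)ᶜ ∈ D) ∧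
    ∀ b : L, ∀ s : L → Set L, (∀ i < b, s i ∈ D) → {x | ∀ i < b, x ∈ s i} ∈ D

theorem FP.congr {L L' : Type} [LinearOrder L] [LinearOrder L'] (e : L ≃o L') (h : FP L) :
    FP L' := by
  intro T
  obtain ⟨D, hne, htail, hdec, hcomp⟩ := h fun j => e ⁻¹' T (e j)
  refine ⟨D.map e, hne.map e, fun b => ?_, fun j => ?_, fun b s hs => ?_⟩
  · rw [Filter.mem_map]
    refine Filter.mem_of_superset (htail (e.symm b)) fun x hx => ?_
    show b < e x
    rw [← e.symm.lt_iff_lt, OrderIso.symm_apply_apply]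
    exact hx
  · have h1 := hdec (e.symm j)
    rw [OrderIso.apply_symm_apply] at h1
    exact h1
  · rw [Filter.mem_map]
    have h1 := hcomp (e.symm b) (fun i => e ⁻¹' s (e i)) (fun i hi => hs (e i) (by
      rw [← e.symm.lt_iff_lt, OrderIso.symm_apply_apply]; exact hi))
    refine Filter.mem_of_superset h1 fun x hx i hi => ?_
    have h2 := hx (e.symm i) (e.symm.lt_iff_lt.2 hi)
    simp only [Set.mem_preimage, OrderIso.apply_symm_apply] at h2
    exact h2

/-- Initial segments of any smaller cardinality. -/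
theorem exists_seg {κ ν : Cardinal.{0}} (h : ν < κ) : ∃ b : κ.ord.ToType, #(Iio b) = ν := by
  refine ⟨Ordinal.ToType.mk ⟨ν.ord, Cardinal.ord_lt_ord.2 h⟩, ?_⟩
  have h1 := congrArg (fun x : Iio κ.ord => x.1.card)
    (OrderIso.symm_apply_apply Ordinal.ToType.mk (⟨ν.ord, Cardinal.ord_lt_ord.2 h⟩ : Iio κ.ord))
  simp only [Cardinal.card_ord] at h1
  exact h1

section Card

variable {κ : Cardinal.{0}}

/-- Closure under intersections of small families, for arbitrary index types. -/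
theorem inter_small {D : Filter κ.ord.ToType}
    (hD : ∀ b : κ.ord.ToType, ∀ s : κ.ord.ToType → Set κ.ord.ToType,
      (∀ i < b, s i ∈ D) → {x | ∀ i < b, x ∈ s i} ∈ D) {ι : Type} (hι : #ι < κ)
    (s : ι → Set κ.ord.ToType) (hs : ∀ i, s i ∈ D) : {x | ∀ i, x ∈ s i} ∈ D := by
  classical
  obtain ⟨b, hb⟩ := exists_seg hι
  obtain ⟨e⟩ := Cardinal.eq.1 hb
  have h1 := hD b (fun i => if h : i < b then s (e ⟨i, h⟩) else univ) (fun i hi => by
    simp only [dif_pos hi]; exact hs _)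
  refine Filter.mem_of_superset h1 fun x hx i => ?_
  have h2 := hx (e.symm i).1 (e.symm i).2
  have h3 : (e.symm i).1 < b := (e.symm i).2
  simp only [dif_pos h3] at h2
  have h4 : e ⟨(e.symm i).1, h3⟩ = i := e.apply_symm_apply i
  rwa [h4] at h2

end Card

/-- An ordinal with the filter property is a cardinal. -/
theorem FP.eq_ord {o : Ordinal.{0}} (h : FP o.ToType) : o = o.card.ord := by
  refine le_antisymm ?_ (Cardinal.ord_card_le _)
  by_contra hlt
  rw [not_le] at hlt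
  obtain ⟨D, hne, htail, -, hcomp⟩ := h fun _ => univ
  let b : o.ToType := Ordinal.ToType.mk ⟨o.card.ord, hlt⟩
  have hb : #(Iio b) = #o.ToType := by
    have h1 := congrArg (fun x : Iio o => x.1.card)
      (OrderIso.symm_apply_apply Ordinal.ToType.mk (⟨o.card.ord, hlt⟩ : Iio o))
    simp only [Cardinal.card_ord] at h1
    rw [Cardinal.mk_toType]
    exact h1
  obtain ⟨e⟩ := Cardinal.eq.1 hb
  classical
  have h1 := hcomp b (fun i => if h : i < b then Ioi (e ⟨i, h⟩) else univ) (fun i hi => by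
    simp only [dif_pos hi]; exact htail _)
  obtain ⟨x, hx⟩ := hne.nonempty_of_mem h1
  have h2 := hx (e.symm x).1 (e.symm x).2
  have h3 : (e.symm x).1 < b := (e.symm x).2
  simp only [dif_pos h3] at h2
  have h4 : e ⟨(e.symm x).1, h3⟩ = x := e.apply_symm_apply x
  rw [h4] at h2
  exact absurd (mem_Ioi.1 h2) (lt_irrefl _)

/-- Cardinals with the filter property are regular. -/
theorem FP.bdd {κ : Cardinal.{0}} (h : FP κ.ord.ToType) {ι : Type} (hι : #ι < κ)
    (f : ι → κ.ord.ToType) : ∃ c, ∀ i, f i < c := by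
  obtain ⟨D, hne, htail, -, hcomp⟩ := h fun _ => univ
  obtain ⟨x, hx⟩ := hne.nonempty_of_mem (inter_small hcomp hι (fun i => Ioi (f i)) fun i => htail _)
  exact ⟨x, hx⟩

/-- Small unions of small sets are small. -/
theorem FP.iUnion {κ : Cardinal.{0}} (hκ : ℵ₀ ≤ κ) (h : FP κ.ord.ToType) {ι : Type} (hι : #ι < κ)
    {X : Type} (S : ι → Set X) (hS : ∀ i, #(S i) < κ) : #(⋃ i, S i) < κ := by
  choose b hb using fun i => exists_seg (hS i)
  obtain ⟨c, hc⟩ := h.bdd hι b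
  have h1 : ∀ i, #(S i) ≤ #(Iio c) := by
    intro i
    rw [← hb i]
    exact Cardinal.mk_le_mk_of_subset (Iio_subset_Iio (hc i).le)
  have h2 : #(Iio c) < κ := Cardinal.mk_Iio_toType_ord_lt c
  calc #(⋃ i, S i) ≤ Cardinal.sum fun i => #(S i) := Cardinal.mk_iUnion_le_sum_mk
    _ ≤ Cardinal.sum fun _ : ι => #(Iio c) := Cardinal.sum_le_sum _ _ h1
    _ = #ι * #(Iio c) := Cardinal.sum_const' _ _
    _ < κ := Cardinal.mul_lt_of_lt hκ hι h2

/-- Diagonal intersections. -/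
theorem diag {L : Type} [LinearOrder L] {W : Ultrafilter L}
    (hreg : ∀ h : L → L, {x | h x < x} ∈ W → ∃ c, {x | h x = c} ∈ W)
    (X : L → Set L) (hX : ∀ i, X i ∈ W) : {x | ∀ i < x, x ∈ X i} ∈ W := by
  classical
  by_contra hcon
  have h1 := Ultrafilter.compl_mem_iff_notMem.2 hcon
  have h2 : ∀ x, ∃ i, x ∈ {x | ∀ i < x, x ∈ X i}ᶜ → i < x ∧ x ∉ X i := by
    intro x
    by_cases hx : x ∈ {x | ∀ i < x, x ∈ X i}ᶜ
    · simp only [mem_compl_iff, mem_ofPred_eq, not_forall] at hx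
      obtain ⟨i, hi, hi'⟩ := hx
      exact ⟨i, fun _ => ⟨hi, hi'⟩⟩
    · exact ⟨x, fun h => absurd h hx⟩
  choose h hh using h2
  obtain ⟨c, hc⟩ := hreg h (Filter.mem_of_superset h1 fun x hx => (hh x hx).1)
  obtain ⟨x, ⟨hx1, hx2⟩, hx3⟩ := W.nonempty_of_mem (Filter.inter_mem (Filter.inter_mem h1 hc) (hX c))
  exact (hh x hx1).2 (hx2 ▸ hx3)

/-- The reflection argument: almost all points have the filter property. -/
theorem reflect {L : Type} [LinearOrder L] [WellFoundedLT L] {W : Ultrafilter L}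
    (hreg : ∀ h : L → L, {x | h x < x} ∈ W → ∃ c, {x | h x = c} ∈ W)
    (hS : {b | Ioi b ∈ W} ∈ W) (b0 : L) (hb0 : Ioi b0 ∈ W) : ∃ a, b0 < a ∧ FP (Iio a) := by
  classical
  by_contra hcon
  push Not at hcon
  -- completeness
  have hcomp : ∀ b, Ioi b ∈ W → ∀ s : L → Set L, (∀ i < b, s i ∈ W) → {x | ∀ i < b, x ∈ s i} ∈ W := by
    intro b hb s hs
    by_contra h0
    have h1 := Ultrafilter.compl_mem_iff_notMem.2 h0
    have h2 : ∀ x, ∃ i, x ∈ {x | ∀ i < b, x ∈ s i}ᶜ → i < b ∧ x ∉ s i := by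
      intro x
      by_cases hx : x ∈ {x | ∀ i < b, x ∈ s i}ᶜ
      · simp only [mem_compl_iff, mem_ofPred_eq, not_forall] at hx
        obtain ⟨i, hi, hi'⟩ := hx
        exact ⟨i, fun _ => ⟨hi, hi'⟩⟩
      · exact ⟨x, fun h => absurd h hx⟩
    choose h hh using h2
    obtain ⟨c, hc⟩ := hreg h (Filter.mem_of_superset (Filter.inter_mem h1 hb) fun x hx =>
      (hh x hx.1).1.trans hx.2)
    obtain ⟨x, hx1, hx2⟩ := W.nonempty_of_mem (Filter.inter_mem h1 hc)
    have h3 := hh x hx1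
    rw [show h x = c from hx2] at h3
    obtain ⟨y, ⟨hy1, hy2⟩, hy3⟩ := W.nonempty_of_mem
      (Filter.inter_mem (Filter.inter_mem h1 hc) (hs c h3.1))
    have h4 := hh y hy1
    rw [show h y = c from hy2] at h4
    exact h4.2 hy3
  -- the counterexamples
  have hT : ∀ a, ∃ T : L → Set L, b0 < a → ∀ D : Filter L, D.NeBot → Iio a ∈ D →
      (∀ b < a, Ioi b ∈ D) → (∀ j < a, T j ∈ D ∨ (T j)ᶜ ∈ D) →
      ¬ ∀ b < a, ∀ s : L → Set L, (∀ i < b, s i ∈ D) → {x | ∀ i < b, x ∈ s i} ∈ D := by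
    intro a
    by_cases ha : b0 < a
    · have h1 := hcon a ha
      unfold FP at h1
      push Not at h1
      obtain ⟨T, hT⟩ := h1
      refine ⟨fun j => if h : j < a then Subtype.val '' T ⟨j, h⟩ else univ,
        fun _ D hne hDa htail hdec hcomp' => ?_⟩
      obtain ⟨b, s, hs1, hs2⟩ := hT (D.comap Subtype.val)
        (Filter.comap_neBot_iff.2 fun t ht => by
          obtain ⟨x, hx1, hx2⟩ := hne.nonempty_of_mem (Filter.inter_mem ht hDa)
          exact ⟨⟨x, hx2⟩, hx1⟩)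
        (fun b => ⟨Ioi b.1, htail b.1 b.2, fun x hx => hx⟩)
        (fun j => by
          have hj : j.1 < a := j.2
          have h2 := hdec j.1 hj
          simp only [dif_pos hj] at h2
          rcases h2 with h2 | h2
          · refine Or.inl ⟨_, h2, ?_⟩
            rintro x ⟨y, hy, hxy⟩
            rwa [← Subtype.ext hxy]
          · exact Or.inr ⟨_, h2, fun x hx hx' => hx ⟨x, hx', rfl⟩⟩)
      refine hs2 ?_
      have hb : b.1 < a := b.2
      have h3 := hcomp' b.1 hb (fun i => if h : i < a then Subtype.val '' s ⟨i, h⟩ else univ) (by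
        intro i hi
        have hia : i < a := hi.trans hb
        simp only [dif_pos hia]
        obtain ⟨t, ht, hts⟩ := hs1 ⟨i, hia⟩ hi
        refine Filter.mem_of_superset (Filter.inter_mem ht hDa) ?_
        rintro x ⟨hx1, hx2⟩
        exact ⟨⟨x, hx2⟩, hts hx1, rfl⟩)
      refine ⟨_, h3, ?_⟩
      intro x hx i hi
      have h4 := hx i.1 hi
      have hia : i.1 < a := i.2
      simp only [dif_pos hia] at h4
      obtain ⟨y, hy, hxy⟩ := h4
      rwa [← Subtype.ext hxy]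
    · exact ⟨fun _ => univ, fun h => absurd h ha⟩
  choose T hT using hT
  -- the limit family
  let T' : L → Set L := fun i => {ξ | {a | ξ ∈ T a i} ∈ W}
  let G : Set L := {i | T' i ∈ W}
  have hA1 : {a | ∀ i < a, ∀ ξ < a, (ξ ∈ T a i ↔ ξ ∈ T' i)} ∈ W := by
    have h1 : ∀ i ξ, {a | ξ ∈ T a i ↔ ξ ∈ T' i} ∈ W := by
      intro i ξ
      by_cases h : ξ ∈ T' i
      · refine Filter.mem_of_superset (show {a | ξ ∈ T a i} ∈ W from h) fun a ha => ?_
        exact ⟨fun _ => h, fun _ => ha⟩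
      · refine Filter.mem_of_superset (Ultrafilter.compl_mem_iff_notMem.2 h) fun a ha => ?_
        exact ⟨fun h' => absurd h' ha, fun h' => absurd h' h⟩
    exact diag hreg _ fun i => diag hreg _ fun ξ => h1 i ξ
  let Z : L → Set L := fun β => {ξ | ∀ i < β, (ξ ∈ T' i ↔ i ∈ G)}
  have hZ : ∀ β, Ioi β ∈ W → Z β ∈ W := by
    intro β hβ
    refine hcomp β hβ (fun i => {ξ | ξ ∈ T' i ↔ i ∈ G}) fun i _ => ?_
    by_cases h : i ∈ G
    · exact Filter.mem_of_superset (show T' i ∈ W from h) fun ξ hξ => ⟨fun _ => h, fun _ => hξ⟩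
    · exact Filter.mem_of_superset (Ultrafilter.compl_mem_iff_notMem.2 h) fun ξ hξ =>
        ⟨fun h' => absurd h' hξ, fun h' => absurd h' h⟩
  have hZm : ∀ β β', β ≤ β' → Z β' ⊆ Z β := fun β β' h ξ hξ i hi => hξ i (hi.trans_le h)
  have hh : ∀ β γ, ∃ ξ, Ioi β ∈ W → Ioi γ ∈ W → γ < ξ ∧ ξ ∈ Z β ∧ Ioi ξ ∈ W := by
    intro β γ
    by_cases h : Ioi β ∈ W ∧ Ioi γ ∈ W
    · obtain ⟨ξ, ⟨h1, h2⟩, h3⟩ := W.nonempty_of_mem
        (Filter.inter_mem (Filter.inter_mem h.2 (hZ β h.1)) hS)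
      exact ⟨ξ, fun _ _ => ⟨h1, h2, h3⟩⟩
    · exact ⟨β, fun h1 h2 => absurd ⟨h1, h2⟩ h⟩
  choose h hh using hh
  have hA2 : {a | ∀ β < a, ∀ γ < a, Ioi β ∈ W → Ioi γ ∈ W → h β γ < a} ∈ W := by
    refine diag hreg _ fun β => diag hreg _ fun γ => ?_
    by_cases h1 : Ioi β ∈ W ∧ Ioi γ ∈ W
    · exact Filter.mem_of_superset (hh β γ h1.1 h1.2).2.2 fun a ha _ _ => ha
    · exact Filter.univ_mem' fun a h2 h3 => absurd ⟨h2, h3⟩ h1
  have hA3 : {a | ∀ b < a, ∀ f : L → L, (∀ i < b, f i < a) → ∃ c < a, ∀ i < b, f i < c} ∈ W := by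
    by_contra h0
    have h1 := Ultrafilter.compl_mem_iff_notMem.2 h0
    have h2 : ∀ a, ∃ b : L, ∃ f : L → L, a ∈ {a | ∀ b < a, ∀ f : L → L, (∀ i < b, f i < a) →
        ∃ c < a, ∀ i < b, f i < c}ᶜ → b < a ∧ (∀ i < b, f i < a) ∧ ∀ c < a, ∃ i < b, c ≤ f i := by
      intro a
      by_cases ha : a ∈ {a | ∀ b < a, ∀ f : L → L, (∀ i < b, f i < a) →
        ∃ c < a, ∀ i < b, f i < c}ᶜ
      · simp only [mem_compl_iff, mem_ofPred_eq] at ha
        push Not at ha
        obtain ⟨b, hb, f, hf, hc⟩ := ha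
        exact ⟨b, f, fun _ => ⟨hb, hf, hc⟩⟩
      · exact ⟨a, fun _ => a, fun h => absurd h ha⟩
    choose b f hbf using h2
    obtain ⟨c, hc⟩ := hreg b (Filter.mem_of_superset h1 fun x hx => (hbf x hx).1)
    -- the constant value is in the initial segment
    have hc' : Ioi c ∈ W := by
      refine Filter.mem_of_superset (Filter.inter_mem h1 hc) fun x hx => ?_
      have := (hbf x hx.1).1
      rw [show b x = c from hx.2] at this
      exact this
    have h3 : ∀ i, ∃ d, i < c → {a | f a i = d} ∈ W := by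
      intro i
      by_cases hi : i < c
      · obtain ⟨d, hd⟩ := hreg (fun a => f a i) (Filter.mem_of_superset (Filter.inter_mem h1 hc)
          fun x hx => (hbf x hx.1).2.1 i (by rw [show b x = c from hx.2]; exact hi))
        exact ⟨d, fun _ => hd⟩
      · exact ⟨i, fun h => absurd h hi⟩
    choose d hd using h3
    have h4 := hcomp c hc' (fun i => {a | f a i = d i}) fun i hi => hd i hi
    have h5 := Filter.inter_mem (Filter.inter_mem h1 hc) h4
    obtain ⟨a, ⟨⟨ha1, ha2⟩, ha4⟩, ha3⟩ := W.nonempty_of_mem (Filter.inter_mem h5 hS)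
    obtain ⟨a', ⟨⟨ha1', ha2'⟩, ha3'⟩, haa⟩ := W.nonempty_of_mem
      (Filter.inter_mem h5 (show Ioi a ∈ W from ha3))
    have h6 := (hbf a' ha1').2.2 a haa
    rw [show b a' = c from ha2'] at h6
    obtain ⟨i, hi, h7⟩ := h6
    have h8 := (hbf a ha1).2.1 i (by rw [show b a = c from ha2]; exact hi)
    rw [show f a i = d i from ha4 i hi] at h8
    rw [show f a' i = d i from ha3' i hi] at h7
    exact absurd h8 (not_lt.2 h7)
  -- choose a point
  have hmem : ∀ a, Ioi a ∈ W → ∀ b < a, Ioi b ∈ W := fun a ha b hb =>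
    Filter.mem_of_superset ha (Ioi_subset_Ioi hb.le)
  obtain ⟨a, ⟨⟨⟨hab0, ha1⟩, ha2⟩, ha3⟩, haS⟩ := W.nonempty_of_mem
    (Filter.inter_mem (Filter.inter_mem (Filter.inter_mem (Filter.inter_mem hb0 hA1) hA2) hA3) hS)
  have hgt : ∀ β < a, ∀ γ < a, γ < h β γ ∧ h β γ ∈ Z β ∧ h β γ < a := fun β hβ γ hγ =>
    ⟨(hh β γ (hmem a haS β hβ) (hmem a haS γ hγ)).1,
      (hh β γ (hmem a haS β hβ) (hmem a haS γ hγ)).2.1,
      ha2 β hβ γ hγ (hmem a haS β hβ) (hmem a haS γ hγ)⟩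
  let B : L → L → Set L := fun β γ => {ξ | ξ < a ∧ γ < ξ ∧ ξ ∈ Z β}
  let D : Filter L :=
    { sets := {s | ∃ β < a, ∃ γ < a, B β γ ⊆ s}
      univ_sets := ⟨b0, hab0, b0, hab0, subset_univ _⟩
      sets_of_superset := by
        rintro s t ⟨β, hβ, γ, hγ, hs⟩ hst
        exact ⟨β, hβ, γ, hγ, hs.trans hst⟩
      inter_sets := by
        rintro s t ⟨β, hβ, γ, hγ, hs⟩ ⟨β', hβ', γ', hγ', ht⟩
        refine ⟨max β β', max_lt hβ hβ', max γ γ', max_lt hγ hγ', fun ξ hξ => ⟨hs ?_, ht ?_⟩⟩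
        · exact ⟨hξ.1, (le_max_left _ _).trans_lt hξ.2.1, hZm _ _ (le_max_left _ _) hξ.2.2⟩
        · exact ⟨hξ.1, (le_max_right _ _).trans_lt hξ.2.1, hZm _ _ (le_max_right _ _) hξ.2.2⟩ }
  have hDmem : ∀ s, s ∈ D ↔ ∃ β < a, ∃ γ < a, B β γ ⊆ s := fun s => Iff.rfl
  refine hT a hab0 D ?_ ?_ ?_ ?_ ?_
  · refine Filter.neBot_iff.2 fun hbot => ?_
    have h1 : (∅ : Set L) ∈ D := by rw [hbot]; trivial
    obtain ⟨β, hβ, γ, hγ, hs⟩ := (hDmem _).1 h1
    exact hs ⟨(hgt β hβ γ hγ).2.2, (hgt β hβ γ hγ).1, (hgt β hβ γ hγ).2.1⟩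
  · exact ⟨b0, hab0, b0, hab0, fun ξ hξ => hξ.1⟩
  · exact fun b hb => ⟨b0, hab0, b, hb, fun ξ hξ => hξ.2.1⟩
  · intro j hj
    have hj' := hgt j hj j hj
    by_cases hG : j ∈ G
    · refine Or.inl ⟨h j j, hj'.2.2, b0, hab0, fun ξ hξ => ?_⟩
      exact (ha1 j hj ξ hξ.1).2 ((hξ.2.2 j hj'.1).2 hG)
    · refine Or.inr ⟨h j j, hj'.2.2, b0, hab0, fun ξ hξ hξ' => ?_⟩
      exact hG ((hξ.2.2 j hj'.1).1 ((ha1 j hj ξ hξ.1).1 hξ'))
  · intro b hb s hs
    have h1 : ∀ i, ∃ β γ : L, i < b → β < a ∧ γ < a ∧ B β γ ⊆ s i := by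
      intro i
      by_cases hi : i < b
      · obtain ⟨β, hβ, γ, hγ, hsub⟩ := hs i hi
        exact ⟨β, γ, fun _ => ⟨hβ, hγ, hsub⟩⟩
      · exact ⟨b, b, fun h => absurd h hi⟩
    choose β γ hβγ using h1
    obtain ⟨β', hβ', h2⟩ := ha3 b hb β fun i hi => (hβγ i hi).1
    obtain ⟨γ', hγ', h3⟩ := ha3 b hb γ fun i hi => (hβγ i hi).2.1
    refine ⟨β', hβ', γ', hγ', fun ξ hξ i hi => (hβγ i hi).2.2 ?_⟩
    exact ⟨hξ.1, (h3 i hi).trans hξ.2.1, hZm _ _ (h2 i hi).le hξ.2.2⟩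

end Pool.Agent.H637.SqC
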