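import Pool.Agent.H637.SqC.Pos

/-!
# After adding a Cohen real `κ` is not `2 ^ κ`-square compact
-/

set_option autoImplicit false

namespace Pool.Agent.H637.SqC

open Cardinal Set Pool.Agent.Helper292.SP Pool.Agent.H637.F

theorem Cohen.le_def {q p : Cohen} : q ≤ p ↔ p.l <+: q.l := Iff.rfl

instance : Countable Cohen :=
  Function.Injective.countable (f := Cohen.l) fun a b h => by
    cases a; cases b; simpa using h

theorem Cohen.get_mono {q p : Cohen} (h : q ≤ p) {m : ℕ} {b : Bool} (hm : p.l[m]? = some b) :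
    q.l[m]? = some b := by
  obtain ⟨t, ht⟩ := Cohen.le_def.1 h
  rw [← ht, List.getElem?_append_left]
  · exact hm
  · by_contra hcon
    rw [List.getElem?_eq_none (not_lt.1 hcon)] at hm
    exact absurd hm (by simp)

/-- The constraints on points of `(ω + 1) ^ I × 2`. -/
abbrev Cn (I : Type) : Type := Bool ⊕ (I × ℕ) ⊕ (I × ℕ)

/-- The points of the space. -/
abbrev Pt (I : Type) : Type := (I → OnePoint ℕ) × Bool

/-- The subbase: the two halves of the space, the sets `z i = n`, and the sets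
`z i ∈ {∞} ∪ {m | k ≤ m, c m = b}` on the half `b`, where `c` is the Cohen real. -/
def Sb {I : Type} (σ : Cn I) (x : Pt I) : Set Cohen :=
  match σ with
  | Sum.inl b => {_p | x.2 = b}
  | Sum.inr (Sum.inl (i, n)) => {_p | x.1 i = (n : OnePoint ℕ)}
  | Sum.inr (Sum.inr (i, k)) => {p | x.1 i = OnePoint.infty ∨
      ∃ m, k ≤ m ∧ x.1 i = (m : OnePoint ℕ) ∧ p.l[m]? = some x.2}

theorem dn_Sb {I : Type} (σ : Cn I) (x : Pt I) : Dn (Sb σ x) := by
  rcases σ with b | ⟨i, n⟩ | ⟨i, k⟩
  · exact fun p hp q _ => hp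
  · exact fun p hp q _ => hp
  · rintro p (hp | ⟨m, h1, h2, h3⟩) q hq
    · exact Or.inl hp
    · exact Or.inr ⟨m, h1, h2, Cohen.get_mono hq h3⟩

/-- The base. -/
def Bs {I : Type} (j : Finset (Cn I)) (x : Pt I) : Set Cohen := {p | ∀ σ ∈ j, p ∈ Sb σ x}

theorem dn_Bs {I : Type} (j : Finset (Cn I)) (x : Pt I) : Dn (Bs j x) :=
  fun _ hp _ hq σ hσ => dn_Sb σ x _ (hp σ hσ) _ hq

theorem isOpen_coe (n : ℕ) : IsOpen {(n : OnePoint ℕ)} := by
  have h := OnePoint.isOpenEmbedding_coe (X := ℕ).isOpenMap {n} (isOpen_discrete _)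
  rwa [image_singleton] at h

theorem isOpen_tail (k : ℕ) :
    IsOpen {x : OnePoint ℕ | x = OnePoint.infty ∨ ∃ m, k ≤ m ∧ x = (m : OnePoint ℕ)} := by
  have h : {x : OnePoint ℕ | x = OnePoint.infty ∨ ∃ m, k ≤ m ∧ x = (m : OnePoint ℕ)} =
      ((fun m : ℕ => (m : OnePoint ℕ)) '' Iio k)ᶜ := by
    ext x
    constructor
    · rintro (rfl | ⟨m, hm, rfl⟩) ⟨m', hm', h⟩
      · exact OnePoint.coe_ne_infty _ h
      · have h1 : m' = m := OnePoint.coe_injective h
        rw [h1] at hm'
        exact absurd hm' (not_lt.2 hm)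
    · intro h
      induction x using OnePoint.rec with
      | infty => exact Or.inl rfl
      | coe m =>
        refine Or.inr ⟨m, ?_, rfl⟩
        by_contra hm
        exact h ⟨m, not_le.1 hm, rfl⟩
  rw [h]
  exact ((Set.finite_Iio k).image _).isClosed.isOpen_compl

/-- The finite subcovers. -/
theorem fin_cover {I : Type} (b : Bool) (t : (I → OnePoint ℕ) → Cohen)
    (j : (I → OnePoint ℕ) → Finset (Cn I)) (ht : ∀ z, t z ∈ Bs (j z) (z, b)) :
    ∃ Fs : Finset (I → OnePoint ℕ), ∀ w, ∃ z ∈ Fs, ∃ t' ≤ t z, t' ∈ Bs (j z) (w, b) := by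
  classical
  -- a bound for the condition and all indices
  have hk : ∀ z, ∃ k : ℕ, (t z).l.length ≤ k ∧
      ∀ i k', (Sum.inr (Sum.inr (i, k')) : Cn I) ∈ j z → k' ≤ k := by
    intro z
    refine ⟨max (t z).l.length ((j z).sup fun σ => match σ with
      | Sum.inl _ => 0
      | Sum.inr (Sum.inl _) => 0
      | Sum.inr (Sum.inr (_, k')) => k'), le_max_left _ _, fun i k' h => ?_⟩
    refine le_max_of_le_right ?_
    exact Finset.le_sup (f := fun σ : Cn I => match σ with
      | Sum.inl _ => 0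
      | Sum.inr (Sum.inl _) => 0
      | Sum.inr (Sum.inr (_, k')) => k') h
  choose k hk1 hk2 using hk
  let V : (I → OnePoint ℕ) → I → Set (OnePoint ℕ) := fun z i =>
    if z i = OnePoint.infty then
      {x : OnePoint ℕ | x = OnePoint.infty ∨ ∃ m, k z ≤ m ∧ x = (m : OnePoint ℕ)} else {z i}
  have hVo : ∀ z i, IsOpen (V z i) := by
    intro z i
    by_cases h : z i = OnePoint.infty
    · simp only [V, if_pos h]
      exact isOpen_tail _
    · simp only [V, if_neg h]
      obtain ⟨n, hn⟩ := OnePoint.ne_infty_iff_exists.1 h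
      rw [← hn]
      exact isOpen_coe n
  have hVm : ∀ z i, z i ∈ V z i := by
    intro z i
    by_cases h : z i = OnePoint.infty
    · simp only [V, if_pos h]
      exact Or.inl h
    · simp only [V, if_neg h]
      exact rfl
  let supp : Cn I → Option I := fun σ => match σ with
    | Sum.inl _ => none
    | Sum.inr (Sum.inl (i, _)) => some i
    | Sum.inr (Sum.inr (i, _)) => some i
  let O : (I → OnePoint ℕ) → Set (I → OnePoint ℕ) := fun z =>
    ⋂ σ ∈ j z, {w | ∀ i, supp σ = some i → w i ∈ V z i}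
  have hOo : ∀ z, IsOpen (O z) := by
    intro z
    refine isOpen_biInter_finset fun σ _ => ?_
    rcases hσ : supp σ with _ | i
    · convert isOpen_univ
      ext w
      simp
    · have h1 : {w : I → OnePoint ℕ | ∀ i', some i = some i' → w i' ∈ V z i'} =
          (fun w : I → OnePoint ℕ => w i) ⁻¹' V z i := by
        ext w
        simp only [Set.mem_ofPred_eq, Option.some.injEq, mem_preimage]
        exact ⟨fun h => h i rfl, fun h i' hi => hi ▸ h⟩
      rw [h1]
      exact (hVo z i).preimage (continuous_apply i)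
  have hOm : ∀ z, z ∈ O z := by
    intro z
    simp only [O, mem_iInter, Set.mem_ofPred_eq]
    exact fun σ _ i _ => hVm z i
  obtain ⟨Fs, hFs⟩ := CompactSpace.elim_nhds_subcover O fun z => (hOo z).mem_nhds (hOm z)
  refine ⟨Fs, fun w => ?_⟩
  have hw : w ∈ ⋃ z ∈ Fs, O z := by rw [hFs]; trivial
  simp only [mem_iUnion] at hw
  obtain ⟨z, hz, hwz⟩ := hw
  refine ⟨z, hz, ?_⟩
  -- long enough
  obtain ⟨N, hN⟩ : ∃ N : ℕ, ∀ i k', (Sum.inr (Sum.inr (i, k')) : Cn I) ∈ j z →
      ∀ m : ℕ, w i = (m : OnePoint ℕ) → m < N := by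
    let val : OnePoint ℕ → ℕ := fun x => if h : ∃ m : ℕ, x = m then h.choose + 1 else 0
    have hval : ∀ m : ℕ, val (m : OnePoint ℕ) = m + 1 := by
      intro m
      have h : ∃ m' : ℕ, (m : OnePoint ℕ) = m' := ⟨m, rfl⟩
      have h1 : h.choose = m := (OnePoint.coe_injective h.choose_spec).symm
      simp only [val, dif_pos h, h1]
    refine ⟨(j z).sup fun σ => match σ with
      | Sum.inl _ => 0
      | Sum.inr (Sum.inl _) => 0
      | Sum.inr (Sum.inr (i, _)) => val (w i), fun i k' h m hm => ?_⟩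
    have h1 := Finset.le_sup (f := fun σ : Cn I => match σ with
      | Sum.inl _ => 0
      | Sum.inr (Sum.inl _) => 0
      | Sum.inr (Sum.inr (i, _)) => val (w i)) h
    simp only [hm, hval] at h1
    exact h1
  refine ⟨⟨(t z).l ++ List.replicate N b⟩, List.prefix_append _ _, ?_⟩
  have hle : (⟨(t z).l ++ List.replicate N b⟩ : Cohen) ≤ t z := List.prefix_append _ _
  intro σ hσ
  have h0 := ht z σ hσ
  have hwσ : ∀ i, supp σ = some i → w i ∈ V z i := by
    have := mem_iInter₂.1 hwz σ hσ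
    exact this
  rcases σ with β | ⟨i, n⟩ | ⟨i, k'⟩
  · exact h0
  · have h1 := hwσ i rfl
    have h2 : z i = (n : OnePoint ℕ) := h0
    have h3 : z i ≠ OnePoint.infty := by rw [h2]; exact OnePoint.coe_ne_infty n
    simp only [V, if_neg h3] at h1
    show w i = (n : OnePoint ℕ)
    rw [← h2]
    exact h1
  · have h1 := hwσ i rfl
    by_cases h3 : z i = OnePoint.infty
    · simp only [V, if_pos h3] at h1
      rcases h1 with h1 | ⟨m, hm, h1⟩
      · exact Or.inl h1
      · refine Or.inr ⟨m, (hk2 z i k' hσ).trans hm, h1, ?_⟩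
        have hm2 : m < N := hN i k' hσ m h1
        have hlen : (t z).l.length ≤ m := (hk1 z).trans hm
        simp only
        rw [List.getElem?_append_right hlen, List.getElem?_replicate_of_lt]
        omega
    · simp only [V, if_neg h3] at h1
      have h1' : w i = z i := h1
      rcases h0 with h0 | ⟨m, hm, h2, h4⟩
      · exact absurd h0 h3
      · refine Or.inr ⟨m, hm, ?_, Cohen.get_mono hle h4⟩
        show w i = (m : OnePoint ℕ)
        rw [h1']
        exact h2

/-- The space is Lindelöf. -/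
theorem lindelof {κ : Cardinal.{0}} (hκ : ℵ₀ < κ) {I M : Type} (em : M → Finset (Cn I))
    (q : Cohen) : q ∈ CompactN κ.ord.ToType fun m x => Bs (em m) x := by
  classical
  intro I0 F
  refine mem_fimp.2 fun q' _ hq' => ⟨q', le_rfl, ?_⟩
  obtain ⟨hopen, hcov⟩ := hq'
  have h1 : ∀ (s : Iic q') (x : Pt I), ∃ t : Cohen, ∃ ι : I0, ∃ m : M, t ≤ s.1 ∧ t ∈ Bs (em m) x ∧
      t ∈ fall fun y => fimp (meets (Bs (em m) y)) (meets (F ι y)) := by
    intro s x
    obtain ⟨t1, ht1, ι, h1⟩ := mem_fex.1 (hcov x) s.1 s.2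
    obtain ⟨t2, ht2, h2⟩ := mem_fimp.1 (hopen ι x) t1 (ht1.trans s.2) h1
    obtain ⟨t3, ht3, m, h3, h4⟩ := mem_fex.1 h2 t2 le_rfl
    obtain ⟨t4, ht4, h5⟩ := exists_mem_of_meets (dn_Bs _ _) h3
    exact ⟨t4, ι, m, ht4.trans (ht3.trans (ht2.trans ht1)), h5,
      dn_fall (fun _ => dn_fimp _ _) _ h4 _ ht4⟩
  choose t ι m hts htB htF using h1
  have h2 : ∀ (s : Iic q') (b : Bool), ∃ Fs : Finset (I → OnePoint ℕ), ∀ w, ∃ z ∈ Fs,
      ∃ t' ≤ t s (z, b), t' ∈ Bs (em (m s (z, b))) (w, b) := fun s b =>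
    fin_cover b (fun z => t s (z, b)) (fun z => em (m s (z, b))) fun z => htB s (z, b)
  choose Fs hFs using h2
  let C : Set I0 := ⋃ s : Iic q', ⋃ b : Bool, ⋃ z ∈ Fs s b, {ι s (z, b)}
  have hC : C.Countable := by
    refine Set.countable_iUnion fun s => Set.countable_iUnion fun b => ?_
    exact (Fs s b).countable_toSet.biUnion fun z _ => Set.countable_singleton _
  have hCm : ∀ s b, ∀ z ∈ Fs s b, ι s (z, b) ∈ C := fun s b z hz =>
    mem_iUnion.2 ⟨s, mem_iUnion.2 ⟨b, mem_iUnion₂.2 ⟨z, hz, rfl⟩⟩⟩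
  have hCne : C.Nonempty := by
    obtain ⟨z, hz, _⟩ := hFs ⟨q', mem_Iic.2 le_rfl⟩ false fun _ => OnePoint.infty
    exact ⟨_, hCm _ _ z hz⟩
  obtain ⟨f, hf⟩ := hC.exists_eq_range hCne
  obtain ⟨b0, hb0⟩ := exists_seg hκ
  obtain ⟨g⟩ : Nonempty (Iio b0 ≃ ℕ) := by
    rw [← Cardinal.eq, hb0, Cardinal.mk_nat]
  refine fex_of_mem b0 (dn_fex _) ?_
  refine fex_of_mem (fun t i => {_r | f (g t) = i})
    (dn_fand (dn_IsFun _) (dn_fall fun _ => dn_fex _)) ⟨isFun_ground _ _, fun x => ?_⟩
  obtain ⟨w, b⟩ := x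
  refine mem_fex.2 fun s hs => ?_
  obtain ⟨z, hz, t', ht', h3⟩ := hFs ⟨s, hs⟩ b w
  obtain ⟨t'', ht'', h4⟩ := mem_fimp.1 (htF ⟨s, hs⟩ (z, b) (w, b)) t' ht'
    (meets_of_mem (s := t') h3 le_rfl)
  have h5 : ι ⟨s, hs⟩ (z, b) ∈ C := hCm _ _ z hz
  rw [hf] at h5
  obtain ⟨n, hn⟩ := h5
  refine ⟨t'', (ht''.trans ht').trans (hts ⟨s, hs⟩ (z, b)), g.symm n, ?_⟩
  refine fex_of_mem (ι ⟨s, hs⟩ (z, b)) (dn_fand (dn_meets _) (dn_meets _)) ⟨?_, h4⟩
  refine meets_ground.2 ?_
  rw [Equiv.apply_symm_apply]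
  exact hn

/-- It is a base. -/
theorem base {I M : Type} (em : M → Finset (Cn I)) (hem : Function.Surjective em)
    (q : Cohen) : q ∈ BaseN fun m x => Bs (em m) x := by
  classical
  refine ⟨fun x => ?_, fun m m' x => ?_⟩
  · obtain ⟨m, hm⟩ := hem ∅
    refine fex_of_mem m (dn_meets _) (meets_of_mem (s := q) ?_ le_rfl)
    intro σ hσ
    rw [hm] at hσ
    exact absurd hσ (Finset.notMem_empty σ)
  · obtain ⟨m'', hm⟩ := hem (em m ∪ em m')
    have h1 : ∀ y, Bs (em m'') y = Bs (em m) y ∩ Bs (em m') y := by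
      intro y
      ext p
      constructor
      · intro hp
        refine ⟨fun σ hσ => hp σ ?_, fun σ hσ => hp σ ?_⟩
        · rw [hm]; exact Finset.mem_union_left _ hσ
        · rw [hm]; exact Finset.mem_union_right _ hσ
      · rintro ⟨hp, hp'⟩ σ hσ
        rw [hm] at hσ
        rcases Finset.mem_union.1 hσ with h | h
        · exact hp σ h
        · exact hp' σ h
    have h2 : ∀ y p, p ∈ meets (Bs (em m'') y) ↔ p ∈ meets (Bs (em m) y) ∧ p ∈ meets (Bs (em m') y) := by
      intro y p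
      rw [mem_meets_of_dn (dn_Bs _ _), mem_meets_of_dn (dn_Bs _ _), mem_meets_of_dn (dn_Bs _ _)]
      constructor
      · intro h
        refine ⟨fun r hr => ?_, fun r hr => ?_⟩
        · obtain ⟨r', hr', h3⟩ := h r hr
          rw [h1] at h3
          exact ⟨r', hr', h3.1⟩
        · obtain ⟨r', hr', h3⟩ := h r hr
          rw [h1] at h3
          exact ⟨r', hr', h3.2⟩
      · rintro ⟨h, h'⟩ r hr
        obtain ⟨r1, hr1, h3⟩ := h r hr
        obtain ⟨r2, hr2, h4⟩ := h' r1 (hr1.trans hr)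
        refine ⟨r2, hr2.trans hr1, ?_⟩
        rw [h1]
        exact ⟨dn_Bs _ _ _ h3 _ hr2, h4⟩
    refine mem_fimp.2 fun p _ hp => ⟨p, le_rfl, ?_⟩
    refine fex_of_mem m'' (dn_fand (dn_meets _) (dn_fall fun _ => dn_fimp _ _)) ⟨(h2 x p).2 hp, ?_⟩
    intro y
    exact mem_fimp.2 fun r _ hr => ⟨r, le_rfl, (h2 y r).1 hr⟩

/-- If there is no countably complete nonprincipal ultrafilter on `κ`, then each `z` is
separated from almost all points of `κ`. -/
theorem exists_fin {κ : Cardinal.{0}} (hκ : ℵ₀ < κ)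
    (hU : ∀ U : Ultrafilter κ.ord.ToType, (∀ b, {b} ∉ U) →
      ¬ ∀ s : ℕ → Set κ.ord.ToType, (∀ n, s n ∈ U) → (⋂ n, s n) ∈ U)
    (z : (κ.ord.ToType → ℕ) → OnePoint ℕ) :
    ∃ A : Finset (κ.ord.ToType → ℕ), #{s : κ.ord.ToType | ∀ i ∈ A, z i = ((i s : ℕ) : OnePoint ℕ)} < κ := by
  classical
  by_contra hcon
  push Not at hcon
  let χ : Set κ.ord.ToType → κ.ord.ToType → ℕ := fun S s => if s ∈ S then 1 else 0
  have hχ1 : ∀ S s, s ∈ S → χ S s = 1 := fun S s h => if_pos h
  have hχ0 : ∀ S s, s ∉ S → χ S s = 0 := fun S s h => if_neg h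
  have key : ∀ A : Finset (κ.ord.ToType → ℕ), ∃ s, ∀ i ∈ A, z i = ((i s : ℕ) : OnePoint ℕ) := by
    intro A
    have h1 := hcon A
    by_contra h2
    push Not at h2
    have h3 : {s : κ.ord.ToType | ∀ i ∈ A, z i = ((i s : ℕ) : OnePoint ℕ)} = ∅ := by
      ext s
      simp only [Set.mem_ofPred_eq, mem_empty_iff_false, iff_false, not_forall]
      obtain ⟨i, hi, h4⟩ := h2 s
      exact ⟨i, hi, h4⟩
    rw [h3, Cardinal.mk_emptyCollection] at h1
    exact absurd (Cardinal.aleph0_pos.trans hκ) (not_lt.2 h1)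
  -- values at members
  have hval : ∀ S s, z (χ S) = ((χ S s : ℕ) : OnePoint ℕ) → (z (χ S) = ((1 : ℕ) : OnePoint ℕ) ↔ s ∈ S) := by
    intro S s h
    constructor
    · intro h1
      by_contra h2
      rw [hχ0 S s h2] at h
      exact absurd (OnePoint.coe_injective (h.symm.trans h1)) (by norm_num)
    · intro h1
      rw [h, hχ1 S s h1]
  let D : Filter κ.ord.ToType :=
    { sets := {S | z (χ S) = ((1 : ℕ) : OnePoint ℕ)}
      univ_sets := by
        obtain ⟨s, hs⟩ := key {χ univ}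
        exact (hval univ s (hs _ (Finset.mem_singleton_self _))).2 trivial
      sets_of_superset := by
        intro S T hS hST
        obtain ⟨s, hs⟩ := key {χ S, χ T}
        have h1 := (hval S s (hs _ (by simp))).1 hS
        exact (hval T s (hs _ (by simp))).2 (hST h1)
      inter_sets := by
        intro S T hS hT
        obtain ⟨s, hs⟩ := key {χ S, χ T, χ (S ∩ T)}
        have h1 := (hval S s (hs _ (by simp))).1 hS
        have h2 := (hval T s (hs _ (by simp))).1 hT
        exact (hval (S ∩ T) s (hs _ (by simp))).2 ⟨h1, h2⟩ }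
  have hDm : ∀ S, S ∈ D ↔ z (χ S) = ((1 : ℕ) : OnePoint ℕ) := fun S => Iff.rfl
  let U : Ultrafilter κ.ord.ToType := Ultrafilter.ofComplNotMemIff D (by
    intro S
    rw [hDm, hDm]
    obtain ⟨s, hs⟩ := key {χ S, χ Sᶜ}
    rw [hval S s (hs _ (by simp)), hval Sᶜ s (hs _ (by simp))]
    simp)
  have hUm : ∀ S, S ∈ U ↔ z (χ S) = ((1 : ℕ) : OnePoint ℕ) := fun S => Iff.rfl
  refine hU U (fun b hb => ?_) fun s hs => ?_
  · rw [hUm] at hb
    have h1 := hcon {χ {b}}
    refine absurd ((h1.trans (Cardinal.mk_le_mk_of_subset (t := {b}) ?_)).trans_eq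
      (Cardinal.mk_singleton b)) (not_le.2 (Cardinal.one_lt_aleph0.trans hκ))
    intro s hs
    exact (hval {b} s (hs _ (Finset.mem_singleton_self _))).1 hb
  · rw [hUm]
    let i : κ.ord.ToType → ℕ := fun x => if h : ∃ n, x ∉ s n then Nat.find h + 1 else 0
    have hi0 : ∀ x, i x = 0 → x ∈ ⋂ n, s n := by
      intro x hx
      rw [mem_iInter]
      by_contra h
      push Not at h
      simp only [i, dif_pos h] at hx
      exact absurd hx (Nat.succ_ne_zero _)
    have hi1 : ∀ x n, i x = n + 1 → x ∉ s n := by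
      intro x n hx
      by_cases h : ∃ n, x ∉ s n
      · simp only [i, dif_pos h, add_left_inj] at hx
        rw [← hx]
        exact Nat.find_spec h
      · simp only [i, dif_neg h] at hx
        exact absurd hx.symm (Nat.succ_ne_zero _)
    obtain ⟨x, hx⟩ := key {i}
    have hzi := hx i (Finset.mem_singleton_self _)
    rcases hn : i x with _ | n
    · rw [hn] at hzi
      obtain ⟨y, hy⟩ := key {i, χ (⋂ n, s n)}
      have h1 := hy i (by simp)
      rw [hzi] at h1
      have h2 : i y = 0 := (OnePoint.coe_injective h1).symm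
      exact (hval _ y (hy _ (by simp))).2 (hi0 y h2)
    · rw [hn] at hzi
      obtain ⟨y, hy⟩ := key {i, χ (s n)}
      have h1 := hy i (by simp)
      rw [hzi] at h1
      have h2 : i y = n + 1 := (OnePoint.coe_injective h1).symm
      exact absurd ((hval _ y (hy _ (by simp))).1 (hs n)) (hi1 y n h2)

/-- The square is not `κ`-compact. -/
theorem square_neg {κ : Cardinal.{0}} (hκ : ℵ₀ < κ) (hFP : FP κ.ord.ToType)
    (hU : ∀ U : Ultrafilter κ.ord.ToType, (∀ b, {b} ∉ U) →
      ¬ ∀ s : ℕ → Set κ.ord.ToType, (∀ n, s n ∈ U) → (⋂ n, s n) ∈ U)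
    {M : Type} (em : M → Finset (Cn (κ.ord.ToType → ℕ))) (hem : Function.Surjective em)
    (q : Cohen) :
    q ∉ CompactN κ.ord.ToType (prodN fun (m : M) (x : Pt (κ.ord.ToType → ℕ)) => Bs (em m) x) := by
  classical
  intro hC
  choose A hA using exists_fin hκ hU
  set E : M → Pt (κ.ord.ToType → ℕ) → Set Cohen := fun m x => Bs (em m) x with hE
  -- the basic sets of the cover
  let a : ((κ.ord.ToType → ℕ) → OnePoint ℕ) → Bool → Finset (Cn (κ.ord.ToType → ℕ)) := fun z b =>
    insert (Sum.inl b) ((A z).image fun i =>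
      if h : ∃ n : ℕ, z i = (n : OnePoint ℕ) then Sum.inr (Sum.inl (i, h.choose))
      else Sum.inr (Sum.inr (i, 0)))
  let W : Option (Option ((κ.ord.ToType → ℕ) → OnePoint ℕ)) →
      Pt (κ.ord.ToType → ℕ) × Pt (κ.ord.ToType → ℕ) → Set Cohen := fun o x => match o with
    | none => {_p | ¬ (x.1.2 = false ∧ x.2.2 = true)}
    | some none => {_p | x.1.1 ≠ x.2.1 ∧ x.1.2 = false ∧ x.2.2 = true}
    | some (some z) => {p | p ∈ Bs (a z false) x.1 ∧ p ∈ Bs (a z true) x.2}
  have hW : ∀ o x, Dn (W o x) := by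
    rintro (_ | _ | z) x
    · exact fun p hp q _ => hp
    · exact fun p hp q _ => hp
    · exact fun p hp q hq => ⟨dn_Bs _ _ _ hp.1 _ hq, dn_Bs _ _ _ hp.2 _ hq⟩
  have hprod : ∀ m x p, p ∈ Bs (em m.1) x.1 → p ∈ Bs (em m.2) x.2 → p ∈ prodN E m x :=
    fun m x p h h' => ⟨meets_of_mem (s := p) h le_rfl, meets_of_mem (s := p) h' le_rfl⟩
  have hprod' : ∀ m x p, p ∈ meets (prodN E m x) → ∃ r ≤ p, r ∈ Bs (em m.1) x.1 ∧ r ∈ Bs (em m.2) x.2 := by
    intro m x p hp
    obtain ⟨r1, hr1, h1⟩ := exists_mem_of_meets (dn_fand (dn_meets _) (dn_meets _)) hp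
    obtain ⟨r2, hr2, h2⟩ := exists_mem_of_meets (dn_Bs _ _) h1.1
    obtain ⟨r3, hr3, h3⟩ := exists_mem_of_meets (dn_Bs _ _) (dn_meets _ _ h1.2 r2 hr2)
    exact ⟨r3, hr3.trans (hr2.trans hr1), dn_Bs _ _ _ h2 _ hr3, h3⟩
  have hopen : q ∈ fall fun o => OpenN (prodN E) (W o) := by
    -- it suffices to find basic neighbourhoods
    have h0 : ∀ o x, ∀ p ∈ W o x, ∃ j1 j2 : Finset (Cn (κ.ord.ToType → ℕ)),
        p ∈ Bs j1 x.1 ∧ p ∈ Bs j2 x.2 ∧ ∀ y r, r ≤ p → r ∈ Bs j1 y.1 → r ∈ Bs j2 y.2 → r ∈ W o y := by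
      rintro (_ | _ | z) x p hp
      · refine ⟨{Sum.inl x.1.2}, {Sum.inl x.2.2}, ?_, ?_, ?_⟩
        · intro σ hσ
          rw [Finset.mem_singleton.1 hσ]
          exact rfl
        · intro σ hσ
          rw [Finset.mem_singleton.1 hσ]
          exact rfl
        · intro y r _ h1 h2
          have h3 : y.1.2 = x.1.2 := h1 _ (Finset.mem_singleton_self _)
          have h4 : y.2.2 = x.2.2 := h2 _ (Finset.mem_singleton_self _)
          show ¬ (y.1.2 = false ∧ y.2.2 = true)
          rw [h3, h4]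
          exact hp
      · obtain ⟨hne, hb1, hb2⟩ := hp
        obtain ⟨i, hi⟩ := Function.ne_iff.1 hne
        rcases hx1 : x.1.1 i with _ | n
        · -- the first value is infinite
          rcases hx2 : x.2.1 i with _ | n
          · exact absurd (hx1.trans hx2.symm) hi
          · refine ⟨{Sum.inl false, Sum.inr (Sum.inr (i, n + 1))},
              {Sum.inl true, Sum.inr (Sum.inl (i, n))}, ?_, ?_, ?_⟩
            · intro σ hσ
              rcases Finset.mem_insert.1 hσ with rfl | hσ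
              · exact hb1
              · rw [Finset.mem_singleton.1 hσ]
                exact Or.inl hx1
            · intro σ hσ
              rcases Finset.mem_insert.1 hσ with rfl | hσ
              · exact hb2
              · rw [Finset.mem_singleton.1 hσ]
                exact hx2
            · intro y r _ h1 h2
              refine ⟨fun h => ?_, h1 _ (Finset.mem_insert_self _ _), h2 _ (Finset.mem_insert_self _ _)⟩
              have h3 : y.2.1 i = (n : OnePoint ℕ) :=
                h2 _ (Finset.mem_insert_of_mem (Finset.mem_singleton_self _))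
              have h4 := h1 _ (Finset.mem_insert_of_mem (Finset.mem_singleton_self _))
              rw [← h] at h3
              rcases h4 with h4 | ⟨m, hm, h4, _⟩
              · rw [h3] at h4
                exact OnePoint.coe_ne_infty _ h4
              · rw [h3] at h4
                have := OnePoint.coe_injective h4
                omega
        · rcases hx2 : x.2.1 i with _ | n'
          · refine ⟨{Sum.inl false, Sum.inr (Sum.inl (i, n))},
              {Sum.inl true, Sum.inr (Sum.inr (i, n + 1))}, ?_, ?_, ?_⟩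
            · intro σ hσ
              rcases Finset.mem_insert.1 hσ with rfl | hσ
              · exact hb1
              · rw [Finset.mem_singleton.1 hσ]
                exact hx1
            · intro σ hσ
              rcases Finset.mem_insert.1 hσ with rfl | hσ
              · exact hb2
              · rw [Finset.mem_singleton.1 hσ]
                exact Or.inl hx2
            · intro y r _ h1 h2
              refine ⟨fun h => ?_, h1 _ (Finset.mem_insert_self _ _), h2 _ (Finset.mem_insert_self _ _)⟩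
              have h3 : y.1.1 i = (n : OnePoint ℕ) :=
                h1 _ (Finset.mem_insert_of_mem (Finset.mem_singleton_self _))
              have h4 := h2 _ (Finset.mem_insert_of_mem (Finset.mem_singleton_self _))
              rw [h] at h3
              rcases h4 with h4 | ⟨m, hm, h4, _⟩
              · rw [h3] at h4
                exact OnePoint.coe_ne_infty _ h4
              · rw [h3] at h4
                have := OnePoint.coe_injective h4
                omega
          · refine ⟨{Sum.inl false, Sum.inr (Sum.inl (i, n))},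
              {Sum.inl true, Sum.inr (Sum.inl (i, n'))}, ?_, ?_, ?_⟩
            · intro σ hσ
              rcases Finset.mem_insert.1 hσ with rfl | hσ
              · exact hb1
              · rw [Finset.mem_singleton.1 hσ]
                exact hx1
            · intro σ hσ
              rcases Finset.mem_insert.1 hσ with rfl | hσ
              · exact hb2
              · rw [Finset.mem_singleton.1 hσ]
                exact hx2
            · intro y r _ h1 h2
              refine ⟨fun h => ?_, h1 _ (Finset.mem_insert_self _ _), h2 _ (Finset.mem_insert_self _ _)⟩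
              have h3 : y.1.1 i = (n : OnePoint ℕ) :=
                h1 _ (Finset.mem_insert_of_mem (Finset.mem_singleton_self _))
              have h4 : y.2.1 i = (n' : OnePoint ℕ) :=
                h2 _ (Finset.mem_insert_of_mem (Finset.mem_singleton_self _))
              rw [h, h4] at h3
              refine hi ?_
              rw [hx1, hx2]
              exact h3.symm
      · exact ⟨a z false, a z true, hp.1, hp.2, fun y r _ h1 h2 => ⟨h1, h2⟩⟩
    intro o x
    refine mem_fimp.2 fun p _ hp => ⟨p, le_rfl, ?_⟩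
    refine mem_fex.2 fun r hr => ?_
    obtain ⟨r1, hr1, h1⟩ := exists_mem_of_meets (hW o x) (dn_meets _ _ hp r hr)
    obtain ⟨j1, j2, h2, h3, h4⟩ := h0 o x r1 h1
    obtain ⟨m1, rfl⟩ := hem j1
    obtain ⟨m2, rfl⟩ := hem j2
    refine ⟨r1, hr1, (m1, m2), meets_of_mem (s := r1) (hprod (m1, m2) x r1 h2 h3) le_rfl, ?_⟩
    intro y
    refine mem_fimp.2 fun r2 hr2 h5 => ?_
    obtain ⟨r3, hr3, h6, h7⟩ := hprod' (m1, m2) y r2 h5
    exact ⟨r3, hr3, meets_of_mem (s := r3) (h4 y r3 (hr3.trans hr2) h6 h7) le_rfl⟩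
  -- members of the basic sets
  have ha : ∀ z b p, p ∈ Bs (a z b) (z, b) := by
    intro z b p σ hσ
    rcases Finset.mem_insert.1 hσ with rfl | hσ
    · exact rfl
    · obtain ⟨i, hi, rfl⟩ := Finset.mem_image.1 hσ
      by_cases h : ∃ n : ℕ, z i = (n : OnePoint ℕ)
      · simp only [dif_pos h]
        exact h.choose_spec
      · simp only [dif_neg h]
        refine Or.inl ?_
        by_contra h1
        obtain ⟨n, hn⟩ := OnePoint.ne_infty_iff_exists.1 h1
        exact h ⟨n, hn.symm⟩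
  have hcov : q ∈ fall fun x => fex fun o => meets (W o x) := by
    rintro ⟨⟨w, b⟩, ⟨w', b'⟩⟩
    by_cases hb : b = false ∧ b' = true
    · by_cases hw : w = w'
      · subst hw
        refine fex_of_mem (some (some w)) (dn_meets _) (meets_of_mem (s := q) ⟨?_, ?_⟩ le_rfl)
        · rw [hb.1]; exact ha w false q
        · rw [hb.2]; exact ha w true q
      · exact fex_of_mem (some none) (dn_meets _) (meets_of_mem (s := q) ⟨hw, hb⟩ le_rfl)
    · exact fex_of_mem none (dn_meets _) (meets_of_mem (s := q) hb le_rfl)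
  obtain ⟨q1, hq1, h1⟩ := mem_fimp.1 (hC _ W) q le_rfl ⟨hopen, hcov⟩
  obtain ⟨q2, hq2, b0, h2⟩ := mem_fex.1 h1 q1 le_rfl
  obtain ⟨q3, hq3, R, hR, hsub⟩ := mem_fex.1 h2 q2 le_rfl
  have hP : #Cohen < κ := (Cardinal.mk_le_aleph0).trans_lt hκ
  have hposs := poss_small hκ.le hP hR
  have hbig := hFP.iUnion hκ.le hposs
    (fun o : {o | ∃ t, ∃ s ≤ q3, s ∈ meets (R t o)} => {s : κ.ord.ToType | ∃ z, o.1 = some (some z) ∧
      ∀ i ∈ A z, z i = ((i s : ℕ) : OnePoint ℕ)}) (by
    rintro ⟨(_ | _ | z), ho⟩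
    · refine lt_of_le_of_lt (le_of_eq ?_) (Cardinal.aleph0_pos.trans hκ)
      rw [Cardinal.mk_eq_zero_iff]
      exact ⟨fun ⟨s, z, h, _⟩ => by simp at h⟩
    · refine lt_of_le_of_lt (le_of_eq ?_) (Cardinal.aleph0_pos.trans hκ)
      rw [Cardinal.mk_eq_zero_iff]
      exact ⟨fun ⟨s, z, h, _⟩ => by simp at h⟩
    · refine lt_of_le_of_lt (Cardinal.mk_le_mk_of_subset ?_) (hA z)
      rintro s ⟨z', h, h'⟩
      have h3 : z = z' := by simpa using h
      rw [h3]
      exact h')
  have hall : (⋃ o : {o | ∃ t, ∃ s ≤ q3, s ∈ meets (R t o)}, {s : κ.ord.ToType | ∃ z, o.1 = some (some z) ∧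
      ∀ i ∈ A z, z i = ((i s : ℕ) : OnePoint ℕ)}) = Set.univ := by
    refine eq_univ_of_forall fun s => mem_iUnion.2 ?_
    let es : (κ.ord.ToType → ℕ) → OnePoint ℕ := fun i => ((i s : ℕ) : OnePoint ℕ)
    obtain ⟨q4, hq4, t, h4⟩ := mem_fex.1 (hsub ((es, false), (es, true))) q3 le_rfl
    obtain ⟨q5, hq5, o, h5, h6⟩ := mem_fex.1 h4 q4 le_rfl
    obtain ⟨q6, hq6, h7⟩ := exists_mem_of_meets (hW _ _) h6
    refine ⟨⟨o, t, q5, hq5.trans hq4, h5⟩, ?_⟩
    rcases o with _ | _ | z
    · exact absurd ⟨rfl, rfl⟩ h7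
    · exact absurd rfl h7.1
    · refine ⟨z, rfl, fun i hi => ?_⟩
      have h8 : ∀ b, (if h : ∃ n : ℕ, z i = (n : OnePoint ℕ) then
          (Sum.inr (Sum.inl (i, h.choose)) : Cn (κ.ord.ToType → ℕ)) else Sum.inr (Sum.inr (i, 0))) ∈ a z b :=
        fun b => Finset.mem_insert_of_mem (Finset.mem_image.2 ⟨i, hi, rfl⟩)
      by_cases h : ∃ n : ℕ, z i = (n : OnePoint ℕ)
      · have h9 := h7.1 _ (h8 false)
        simp only [dif_pos h] at h9
        have h10 : es i = (h.choose : OnePoint ℕ) := h9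
        rw [← h.choose_spec] at h10
        exact h10.symm
      · exfalso
        have h9 := h7.1 _ (h8 false)
        have h10 := h7.2 _ (h8 true)
        simp only [dif_neg h] at h9 h10
        rcases h9 with h9 | ⟨m, _, h11, h12⟩
        · exact OnePoint.coe_ne_infty _ h9
        · rcases h10 with h10 | ⟨m', _, h13, h14⟩
          · exact OnePoint.coe_ne_infty _ h10
          · have h15 : m = m' := OnePoint.coe_injective (h11.symm.trans h13)
            rw [h15, h14] at h12
            simp at h12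
  rw [hall, Cardinal.mk_univ, Cardinal.mk_toType, Cardinal.card_ord] at hbig
  exact lt_irrefl _ hbig

/-- Cardinals are preserved by small forcing. -/
theorem isCard_small {P : Type} [Preorder P] {κ : Cardinal.{0}} (hκ : ℵ₀ ≤ κ) (hP : #P < κ)
    (p : P) : p ∈ IsCard P κ.ord.ToType := by
  intro a
  refine not_fex fun q _ F hF => ?_
  have h1 := poss_small hκ hP hF.1
  have h2 : {i : κ.ord.ToType | ∃ t, ∃ s ≤ q, s ∈ meets (F t i)} = Set.univ := by
    refine eq_univ_of_forall fun i => ?_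
    obtain ⟨r, hr, h3⟩ := mem_fimp.1 (hF.2 i) q le_rfl (meets_of_mem (s := q) trivial le_rfl)
    obtain ⟨r', hr', t, h4⟩ := mem_fex.1 h3 r le_rfl
    exact ⟨t, r', hr'.trans hr, h4⟩
  rw [h2, Cardinal.mk_univ, Cardinal.mk_toType, Cardinal.card_ord] at h1
  exact lt_irrefl _ h1

/-- The cardinality of the base. -/
theorem mk_base {κ : Cardinal.{0}} (hκ : ℵ₀ ≤ κ) :
    #(Finset (Cn (κ.ord.ToType → ℕ))) = 2 ^ κ := by
  have h1 : #(κ.ord.ToType → ℕ) = 2 ^ κ := by
    rw [Cardinal.mk_pi, Cardinal.prod_const, Cardinal.lift_id, Cardinal.lift_id, Cardinal.mk_nat,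
      Cardinal.mk_toType, Cardinal.card_ord, Cardinal.power_eq_two_power hκ]
    · exact Cardinal.nat_lt_aleph0 2 |>.le
    · exact hκ
  have h2 : ℵ₀ ≤ (2 : Cardinal.{0}) ^ κ := hκ.trans (Cardinal.cantor κ).le
  have h3 : #((κ.ord.ToType → ℕ) × ℕ) = 2 ^ κ := by
    rw [Cardinal.mk_prod, Cardinal.lift_id, Cardinal.lift_id, h1, Cardinal.mk_nat,
      Cardinal.mul_eq_left h2 h2 Cardinal.aleph0_ne_zero]
  have h4 : #(Cn (κ.ord.ToType → ℕ)) = 2 ^ κ := by
    simp only [Cn, Cardinal.mk_sum, Cardinal.lift_id, h3]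
    rw [Cardinal.add_eq_self h2]
    exact Cardinal.add_eq_right h2 ((Cardinal.lt_aleph0_of_finite Bool).le.trans h2)
  have : Infinite (Cn (κ.ord.ToType → ℕ)) := Cardinal.infinite_iff.2 (h4 ▸ h2)
  rw [Cardinal.mk_finset_of_infinite, h4]


end Pool.Agent.H637.SqC
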