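import Pool.Agent.H637.SqC.Filt

/-!
# Below a countably complete ultrafilter there is a cardinal with the filter property
-/

set_option autoImplicit false

namespace Pool.Agent.H637.SqC

open Cardinal Set

/-- No countably complete nonprincipal ultrafilter lives on the least uncountable ordinal with the
filter property. -/
theorem no_ult {o : Ordinal.{0}} (hω : Ordinal.omega0 < o)
    (hmin : ∀ o' < o, Ordinal.omega0 < o' → ¬ FP o'.ToType) (U : Ultrafilter o.ToType)
    (hnp : ∀ b, {b} ∉ U) (hσ : ∀ s : ℕ → Set o.ToType, (∀ n, s n ∈ U) → (⋂ n, s n) ∈ U) :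
    False := by
  classical
  -- the least function which is not constant
  let r : (o.ToType → o.ToType) → (o.ToType → o.ToType) → Prop := fun g' g => {x | g' x < g x} ∈ U
  have hr : WellFounded r := by
    rw [wellFounded_iff_isEmpty_descending_chain]
    refine ⟨fun ⟨f, hf⟩ => ?_⟩
    obtain ⟨x, hx⟩ := U.nonempty_of_mem (hσ (fun n => {x | f (n+1) x < f n x}) hf)
    rw [mem_iInter] at hx
    have hwf : WellFounded ((· < ·) : o.ToType → o.ToType → Prop) := wellFounded_lt
    rw [wellFounded_iff_isEmpty_descending_chain] at hwf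
    exact hwf.false ⟨fun n => f n x, hx⟩
  let N : Set (o.ToType → o.ToType) := {g | ∀ c, {x | g x = c} ∉ U}
  have hN : N.Nonempty := ⟨id, fun c => by
    have h : {x : o.ToType | id x = c} = {c} := by ext; simp
    rw [h]; exact hnp c⟩
  obtain ⟨g, hg, hgmin⟩ := hr.has_min N hN
  let W : Ultrafilter o.ToType := U.map g
  have hWmem : ∀ s, s ∈ W ↔ g ⁻¹' s ∈ U := fun s => Iff.rfl
  have hreg : ∀ h : o.ToType → o.ToType, {x | h x < x} ∈ W → ∃ c, {x | h x = c} ∈ W := by
    intro h hh
    by_contra hcon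
    push Not at hcon
    exact hgmin (fun x => h (g x)) (fun c hc => hcon c hc) hh
  have hsing : ∀ c, {c} ∉ W := fun c => hg c
  have hWσ : ∀ s : ℕ → Set o.ToType, (∀ n, s n ∈ W) → (⋂ n, s n) ∈ W := by
    intro s hs
    rw [hWmem, preimage_iInter]
    exact hσ _ hs
  have hS : {b | Ioi b ∈ W} ∈ W := by
    by_contra hcon
    have h1 := Ultrafilter.compl_mem_iff_notMem.2 hcon
    have hwf : WellFounded ((· < ·) : o.ToType → o.ToType → Prop) := wellFounded_lt
    let C : Set o.ToType := {b | Ioi b ∈ W}ᶜ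
    have hC : C.Nonempty := W.nonempty_of_mem h1
    let m := hwf.min C hC
    have hm : Ioi m ∉ W := hwf.min_mem C hC
    have hm' : ∀ b < m, Ioi b ∈ W := by
      intro b hb
      by_contra hb'
      exact hwf.not_lt_min C (x := b) hb' hb
    have h2 : Iio m ∈ W := by
      by_contra h3
      have h4 := Ultrafilter.compl_mem_iff_notMem.2 h3
      have h5 := Ultrafilter.compl_mem_iff_notMem.2 hm
      refine hsing m (Filter.mem_of_superset (Filter.inter_mem h4 h5) ?_)
      rintro x ⟨hx1, hx2⟩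
      exact le_antisymm (not_lt.1 hx2) (not_lt.1 hx1)
    exact hcon (Filter.mem_of_superset h2 hm')
  -- the point `ω`
  let b0 : o.ToType := Ordinal.ToType.mk ⟨Ordinal.omega0, hω⟩
  have htyp : ∀ a : o.ToType, Ordinal.type (α := Iio a) (· < ·) = (Ordinal.ToType.toOrd a).1 :=
    fun a => rfl
  have hb0o : (Ordinal.ToType.toOrd b0).1 = Ordinal.omega0 :=
    congrArg Subtype.val (OrderIso.symm_apply_apply Ordinal.ToType.mk (⟨_, hω⟩ : Iio o))
  have hb0c : (Iic b0).Countable := by
    rw [← Set.Iio_insert]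
    refine Set.Countable.insert _ ?_
    rw [← Cardinal.le_aleph0_iff_set_countable]
    have h1 : #(Iio b0) = (Ordinal.type (α := Iio b0) (· < ·)).card := rfl
    rw [h1, htyp, hb0o, Ordinal.card_omega0]
  have hb0 : Ioi b0 ∈ W := by
    by_contra hcon
    have h1 := Ultrafilter.compl_mem_iff_notMem.2 hcon
    obtain ⟨e, he⟩ := hb0c.exists_eq_range ⟨b0, self_mem_Iic⟩
    have h2 := hWσ (fun n => {e n}ᶜ) fun n => Ultrafilter.compl_mem_iff_notMem.2 (hsing _)
    obtain ⟨x, hx1, hx2⟩ := W.nonempty_of_mem (Filter.inter_mem h1 h2)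
    have hx : x ∈ Iic b0 := by
      by_contra h
      rw [mem_Iic, not_le] at h
      exact hx1 h
    rw [he] at hx
    obtain ⟨n, rfl⟩ := hx
    exact (mem_iInter.1 hx2 n) rfl
  obtain ⟨a, ha, hFP⟩ := reflect hreg hS b0 hb0
  have ho' : (Ordinal.ToType.toOrd a).1 < o := (Ordinal.ToType.toOrd a).2
  refine hmin _ ho' ?_ ?_
  · rw [← hb0o]
    exact (Ordinal.ToType.mk (o := o)).symm.lt_iff_lt.2 ha
  · have h1 : Ordinal.type (α := Iio a) (· < ·)
        = Ordinal.type (α := ((Ordinal.ToType.toOrd a).1).ToType) (· < ·) := by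
      rw [Ordinal.type_toType]
      exact htyp a
    obtain ⟨e⟩ := Ordinal.type_eq.1 h1
    exact hFP.congr (OrderIso.ofRelIsoLT e)

end Pool.Agent.H637.SqC
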