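import Pool.Agent.H637.SqC.Filt
import Pool.Agent.H637.SqC.Defs
import Pool.Agent.H637.F.Basic

/-!
# `κ` is `κ`-square compact after small forcing
-/

set_option autoImplicit false

namespace Pool.Agent.H637.SqC

open Cardinal Set Pool.Agent.Helper292.SP Pool.Agent.H637.F

variable {P : Type} [Preorder P]

/-- The possible values of a named function with few arguments. -/
theorem poss_small {κ : Cardinal.{0}} (hκ : ℵ₀ ≤ κ) (hP : #P < κ) {b : κ.ord.ToType} {I : Type}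
    {R : Iio b → I → Set P} {q : P} (hR : q ∈ IsFun R) :
    #{i : I | ∃ t, ∃ s ≤ q, s ∈ meets (R t i)} < κ := by
  classical
  have h1 : #{i : I | ∃ t, ∃ s ≤ q, s ∈ meets (R t i)} ≤ #(Iio b × P) := by
    choose t s hs hm using fun i : {i : I | ∃ t, ∃ s ≤ q, s ∈ meets (R t i)} => i.2
    refine Cardinal.mk_le_of_injective (f := fun i => (t i, s i)) ?_
    intro i i' hii
    have h4 := (Prod.mk.inj hii).1
    have h5 := (Prod.mk.inj hii).2
    apply Subtype.ext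
    refine IsFun_fun hR (hs i) (hm i) ?_
    rw [h4, h5]
    exact hm i'
  refine h1.trans_lt ?_
  rw [Cardinal.mk_prod, Cardinal.lift_id, Cardinal.lift_id]
  exact Cardinal.mul_lt_of_lt hκ (Cardinal.mk_Iio_toType_ord_lt b) hP

/-- Limit points. -/
theorem limit_point {κ : Cardinal.{0}} (hκ : ℵ₀ ≤ κ) (hP : #P < κ) {J X : Type}
    {E : J → X → Set P} {q : P} (hC : q ∈ CompactN κ.ord.ToType E)
    {D : Filter κ.ord.ToType} (hne : D.NeBot)
    (hcomp : ∀ b : κ.ord.ToType, ∀ s : κ.ord.ToType → Set κ.ord.ToType,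
      (∀ i < b, s i ∈ D) → {x | ∀ i < b, x ∈ s i} ∈ D)
    (x : κ.ord.ToType → X)
    (hdec : ∀ s : P, ∀ j, {α | s ∈ meets (E j (x α))} ∈ D ∨ {α | s ∈ meets (E j (x α))}ᶜ ∈ D)
    {r : P} (hr : r ≤ q) :
    ∃ r' ≤ r, ∃ y : X, ∀ j, r' ∈ fimp (meets (E j y))
      (meets {s | {α | s ∈ meets (E j (x α))} ∈ D}) := by
  classical
  by_contra hcon
  push Not at hcon
  -- the sets of the base which are avoided
  let N : J → Set P := fun j => {s | {α | s ∈ meets (E j (x α))} ∈ D}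
  have hN : ∀ j, Dn (N j) := fun j s hs t ht => Filter.mem_of_superset hs fun α hα =>
    dn_meets _ _ hα t ht
  let F : J → X → Set P := fun j y => fand (meets (E j y)) (fnot (meets (N j)))
  have hF : ∀ j y, Dn (F j y) := fun j y => dn_fand (dn_meets _) (dn_fnot _)
  have hopen : r ∈ fall fun j => OpenN E (F j) := by
    intro j y
    refine mem_fimp.2 fun s hs hsF => ⟨s, le_rfl, ?_⟩
    refine mem_fex.2 fun s1 hs1 => ?_
    obtain ⟨s2, hs2, h2⟩ := exists_mem_of_meets (hF j y) (dn_meets _ _ hsF s1 hs1)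
    refine ⟨s2, hs2, j, h2.1, fun z => ?_⟩
    refine mem_fimp.2 fun s3 hs3 h3 => ⟨s3, le_rfl, ?_⟩
    exact meets_of_mem (s := s3) ⟨h3, dn_fnot _ _ h2.2 _ hs3⟩ le_rfl
  have hcov : r ∈ fall fun y => fex fun j => meets (F j y) := by
    intro y
    refine mem_fex.2 fun s hs => ?_
    obtain ⟨j, hj⟩ := hcon s hs y
    rw [mem_fimp] at hj
    push Not at hj
    obtain ⟨s1, hs1, h1, h2⟩ := hj
    exact ⟨s1, hs1, j, meets_of_mem (s := s1) ⟨h1, fun t ht => h2 t ht⟩ le_rfl⟩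
  obtain ⟨r1, hr1, h1⟩ := mem_fimp.1 (hC J F) r hr ⟨hopen, hcov⟩
  obtain ⟨r2, hr2, b, h2⟩ := mem_fex.1 h1 r1 le_rfl
  obtain ⟨r3, hr3, R, hR, hsub⟩ := mem_fex.1 h2 r2 le_rfl
  -- few sets are used
  have hposs := poss_small hκ hP hR
  have hmem1 : ∀ j, {α | ∀ s : P, s ∉ N j → s ∉ meets (E j (x α))} ∈ D := by
    intro j
    refine inter_small hcomp hP (fun s => {α | s ∉ N j → s ∉ meets (E j (x α))}) fun s => ?_
    by_cases hs : s ∈ N j
    · exact Filter.univ_mem' fun α h => absurd hs h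
    · rcases hdec s j with h | h
      · exact absurd h hs
      · exact Filter.mem_of_superset h fun α hα _ => hα
  have hmem2 := inter_small hcomp hposs
    (fun i : {i : J | ∃ t, ∃ s ≤ r3, s ∈ meets (R t i)} =>
      {α | ∀ s : P, s ∉ N i.1 → s ∉ meets (E i.1 (x α))}) fun i => hmem1 i.1
  obtain ⟨α, hα⟩ := hne.nonempty_of_mem hmem2
  obtain ⟨r4, hr4, t, h4⟩ := mem_fex.1 (hsub (x α)) r3 le_rfl
  obtain ⟨r5, hr5, i, h5, h6⟩ := mem_fex.1 h4 r4 le_rfl
  obtain ⟨r6, hr6, h7⟩ := exists_mem_of_meets (hF i (x α)) h6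
  have hi : i ∈ {i : J | ∃ t, ∃ s ≤ r3, s ∈ meets (R t i)} :=
    ⟨t, r5, hr5.trans hr4, h5⟩
  refine hα ⟨i, hi⟩ r6 (fun h8 => ?_) h7.1
  exact h7.2 r6 le_rfl (meets_of_mem h8 le_rfl)

/-- `κ` is `κ`-square compact in small extensions. -/
theorem square_pos {κ : Cardinal.{0}} (hκ : ℵ₀ < κ) (hFP : FP κ.ord.ToType) (hP : #P < κ)
    (p : P) : p ∈ SquareCompactN P κ.ord.ToType κ.ord.ToType := by
  classical
  intro X E
  refine mem_fimp.2 fun q _ hq => ⟨q, le_rfl, ?_⟩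
  obtain ⟨-, hC⟩ := hq
  intro I F
  refine mem_fimp.2 fun q' hq' hcover => ?_
  replace hC : q' ∈ CompactN κ.ord.ToType E := by
    intro I F
    exact dn_fimp _ _ _ (hC I F) q' hq'
  obtain ⟨hopen, hcov⟩ := hcover
  by_contra hno
  have hne : Nonempty κ.ord.ToType := by
    rw [← Cardinal.mk_ne_zero_iff, Cardinal.mk_toType, Cardinal.card_ord]
    exact (Cardinal.aleph0_pos.trans hκ).ne'
  -- an enumeration of the base of the square
  obtain ⟨e⟩ : Nonempty (κ.ord.ToType ≃ κ.ord.ToType × κ.ord.ToType) := by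
    rw [← Cardinal.eq, Cardinal.mk_prod, Cardinal.lift_id, Cardinal.mk_toType, Cardinal.card_ord,
      Cardinal.mul_eq_self hκ.le]
  let φ : κ.ord.ToType → I → Set P := fun β i =>
    fall fun y => fimp (meets (prodN E (e β) y)) (meets (F i y))
  have hφ : ∀ β i, Dn (φ β i) := fun β i => dn_fall fun _ => dn_fimp _ _
  let ψ : κ.ord.ToType → X × X → Set P := fun α x =>
    fall fun β : Iio α => fimp (fex fun i => φ β.1 i) (fnot (meets (prodN E (e β.1) x)))
  have hψ : ∀ α x, Dn (ψ α x) := fun α x => dn_fall fun _ => dn_fimp _ _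
  have hstep : ∀ α, ∃ r ≤ q', ∃ x, r ∈ ψ α x := by
    intro α
    by_contra hcon
    push Not at hcon
    by_cases hX : Nonempty (X × X)
    · obtain ⟨x0⟩ := hX
      obtain ⟨_, _, i0, _⟩ := mem_fex.1 (hcov x0) q' le_rfl
      obtain ⟨R, hR, hRφ⟩ := exists_choice i0 (fun β : Iio α => φ β.1) fun β => hφ β.1
      refine hno ⟨q', le_rfl, fex_of_mem α (dn_fex _) ?_⟩
      refine fex_of_mem R (dn_fand (dn_IsFun _) (dn_fall fun _ => dn_fex _)) ⟨hR q', fun x => ?_⟩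
      refine mem_fex.2 fun s hs => ?_
      have h1 := hcon s hs x
      have h2 : ∃ β : Iio α, s ∉ fimp (fex fun i => φ β.1 i) (fnot (meets (prodN E (e β.1) x))) := by
        by_contra h3
        push Not at h3
        exact h1 h3
      obtain ⟨β, h2⟩ := h2
      rw [mem_fimp] at h2
      push Not at h2
      obtain ⟨s1, hs1, h3, h4⟩ := h2
      have h5 := h4 s1 le_rfl
      simp only [fnot, Set.mem_ofPred_eq, not_forall, not_not] at h5
      obtain ⟨s2, hs2, h6⟩ := h5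
      obtain ⟨s3, hs3, i, h7, h8⟩ := hRφ β s2 (dn_fex _ _ h3 s2 hs2)
      obtain ⟨s4, hs4, h9⟩ := mem_fimp.1 (h8 x) s3 le_rfl (dn_meets _ _ h6 s3 hs3)
      refine ⟨s4, hs4.trans (hs3.trans (hs2.trans hs1)), β, ?_⟩
      exact fex_of_mem i (dn_fand (dn_meets _) (dn_meets _)) ⟨dn_meets _ _ h7 s4 hs4, h9⟩
    · -- the empty space
      obtain ⟨m, hm⟩ : ∃ m : κ.ord.ToType, ∀ b, m ≤ b :=
        ⟨wellFounded_lt.min univ ⟨hne.some, trivial⟩, fun b => wellFounded_lt.min_le (mem_univ b)⟩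
      refine hno ⟨q', le_rfl, fex_of_mem m (dn_fex _) ?_⟩
      refine fex_of_mem (fun _ _ => univ)
        (dn_fand (dn_IsFun _) (dn_fall fun _ => dn_fex _)) ⟨⟨fun t => ?_, fun t => ?_⟩, fun x => ?_⟩
      · exact absurd t.2 (not_lt.2 (hm _))
      · exact absurd t.2 (not_lt.2 (hm _))
      · exact absurd ⟨x⟩ hX
  choose r hrq x hrx using hstep
  -- the filter
  let Θ : Type := P ⊕ (P × κ.ord.ToType) ⊕ (P × κ.ord.ToType)
  let T : Θ → Set κ.ord.ToType := fun θ => match θ with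
    | Sum.inl s => {α | r α = s}
    | Sum.inr (Sum.inl (s, j)) => {α | s ∈ meets (E j (x α).1)}
    | Sum.inr (Sum.inr (s, j)) => {α | s ∈ meets (E j (x α).2)}
  have hΘ : #Θ ≤ κ := by
    have h1 : #(P × κ.ord.ToType) ≤ κ := by
      rw [Cardinal.mk_prod, Cardinal.lift_id, Cardinal.lift_id, Cardinal.mk_toType,
        Cardinal.card_ord]
      exact (mul_le_mul' hP.le le_rfl).trans (Cardinal.mul_eq_self hκ.le).le
    have h2 : #Θ = #P + (#(P × κ.ord.ToType) + #(P × κ.ord.ToType)) := by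
      simp only [Θ, Cardinal.mk_sum, Cardinal.lift_id]
    rw [h2]
    calc #P + (#(P × κ.ord.ToType) + #(P × κ.ord.ToType)) ≤ κ + (κ + κ) :=
          add_le_add hP.le (add_le_add h1 h1)
      _ = κ := by rw [Cardinal.add_eq_self hκ.le, Cardinal.add_eq_self hκ.le]
  obtain ⟨ι⟩ : Nonempty (Θ ↪ κ.ord.ToType) := by
    rw [← Cardinal.le_def, Cardinal.mk_toType, Cardinal.card_ord]
    exact hΘ
  obtain ⟨D, hD, htail, hdec0, hcomp⟩ := hFP fun k => if h : ∃ θ, ι θ = k then T h.choose else univ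
  have hdec : ∀ θ, T θ ∈ D ∨ (T θ)ᶜ ∈ D := by
    intro θ
    have h1 := hdec0 (ι θ)
    have h2 : ∃ θ', ι θ' = ι θ := ⟨θ, rfl⟩
    have h3 : h2.choose = θ := ι.injective h2.choose_spec
    simp only [dif_pos h2, h3] at h1
    exact h1
  obtain ⟨r0, hr0⟩ : ∃ r0 : P, {α | r α = r0} ∈ D := by
    by_contra hcon
    push Not at hcon
    have h1 := inter_small hcomp hP (fun s : P => {α | r α = s}ᶜ) fun s =>
      (hdec (Sum.inl s)).resolve_left (hcon s)
    obtain ⟨α, hα⟩ := hD.nonempty_of_mem h1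
    exact hα (r α) rfl
  have hr0q : r0 ≤ q' := by
    obtain ⟨α, hα⟩ := hD.nonempty_of_mem hr0
    rw [← show r α = r0 from hα]
    exact hrq α
  obtain ⟨r1, hr1, y1, hy1⟩ := limit_point hκ.le hP hC hD hcomp (fun α => (x α).1)
    (fun s j => hdec (Sum.inr (Sum.inl (s, j)))) hr0q
  obtain ⟨r2, hr2, y2, hy2⟩ := limit_point hκ.le hP hC hD hcomp (fun α => (x α).2)
    (fun s j => hdec (Sum.inr (Sum.inr (s, j)))) (hr1.trans hr0q)
  -- a member of the cover
  obtain ⟨r3, hr3, i, h3⟩ := mem_fex.1 (hcov (y1, y2)) r2 ((hr2.trans hr1).trans hr0q)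
  have hr3q : r3 ≤ q' := ((hr3.trans hr2).trans hr1).trans hr0q
  obtain ⟨r4, hr4, h4⟩ := mem_fimp.1 (hopen i (y1, y2)) r3 hr3q h3
  obtain ⟨r5, hr5, j, h5, h6⟩ := mem_fex.1 h4 r4 le_rfl
  have hpd : ∀ (j : κ.ord.ToType × κ.ord.ToType) (z : X × X), Dn (prodN (P := P) E j z) :=
    fun j z => dn_fand (dn_meets _) (dn_meets _)
  obtain ⟨r6, hr6, h7⟩ := exists_mem_of_meets (hpd j (y1, y2)) h5
  have hr61 : r6 ≤ r1 := (((hr6.trans hr5).trans hr4).trans hr3).trans hr2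
  have hr62 : r6 ≤ r2 := ((hr6.trans hr5).trans hr4).trans hr3
  obtain ⟨r7, hr7, h8⟩ := mem_fimp.1 (hy1 j.1) r6 hr61 h7.1
  have hdn1 : ∀ j, Dn {s : P | {α | s ∈ meets (E j (x α).1)} ∈ D} := fun j s hs t ht =>
    Filter.mem_of_superset hs fun α hα => dn_meets _ _ hα t ht
  have hdn2 : ∀ j, Dn {s : P | {α | s ∈ meets (E j (x α).2)} ∈ D} := fun j s hs t ht =>
    Filter.mem_of_superset hs fun α hα => dn_meets _ _ hα t ht
  obtain ⟨r8, hr8, h9⟩ := exists_mem_of_meets (hdn1 j.1) h8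
  obtain ⟨r9, hr9, h10⟩ := mem_fimp.1 (hy2 j.2) r8 ((hr8.trans hr7).trans hr62)
    (dn_meets _ _ h7.2 r8 (hr8.trans hr7))
  obtain ⟨r10, hr10, h11⟩ := exists_mem_of_meets (hdn2 j.2) h10
  have h12 : {α | r10 ∈ meets (E j.1 (x α).1)} ∈ D := hdn1 _ _ h9 r10 (hr10.trans hr9)
  obtain ⟨α, ⟨⟨hα1, hα2⟩, hα3⟩, hα4⟩ := hD.nonempty_of_mem (Filter.inter_mem (Filter.inter_mem
    (Filter.inter_mem h12 (show {α | r10 ∈ meets (E j.2 (x α).2)} ∈ D from h11)) hr0)
    (htail (e.symm j)))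
  have h13 := hrx α ⟨e.symm j, hα4⟩
  have hr10' : r10 ≤ r α := by
    rw [show r α = r0 from hα3]
    exact ((((hr10.trans hr9).trans hr8).trans hr7).trans hr61).trans hr1
  have hej : e (e.symm j) = j := e.apply_symm_apply j
  obtain ⟨r11, hr11, h14⟩ := mem_fimp.1 h13 r10 hr10' (by
    refine fex_of_mem i (hφ _ i) ?_
    show r10 ∈ φ (e.symm j) i
    simp only [φ, hej]
    exact dn_fall (fun _ => dn_fimp _ _) _ h6 r10
      ((((hr10.trans hr9).trans hr8).trans hr7).trans hr6))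
  refine h14 r11 le_rfl ?_
  simp only [hej]
  refine meets_of_mem (s := r11) ⟨?_, ?_⟩ le_rfl
  · exact dn_meets _ _ hα1 r11 hr11
  · exact dn_meets _ _ hα2 r11 hr11

end Pool.Agent.H637.SqC
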