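import Pool.Agent.H637.SqC.NoUlt
import Pool.Agent.H637.SqC.Defs

/-!
# Weakly compact cardinals
-/

set_option autoImplicit false

namespace Pool.Agent.H637.SqC

open Cardinal Set

theorem regular_bdd {κ : Cardinal.{0}} (hκ : κ.IsRegular) {ι : Type} (hι : #ι < κ)
    (f : ι → κ.ord.ToType) : ∃ c, ∀ i, f i < c := by
  by_contra hcon
  push Not at hcon
  have h1 : IsCofinal (range f) := by
    intro c
    obtain ⟨i, hi⟩ := hcon c
    exact ⟨f i, ⟨i, rfl⟩, hi⟩
  have h2 := Order.cof_le h1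
  rw [Ordinal.cof_toType] at h2
  exact absurd (hκ.le_cof_ord.trans (h2.trans Cardinal.mk_range_le)) (not_le.2 hι)

/-- The nodes of the tree of the decisions. -/
structure Node {L : Type} [LinearOrder L] (T : L → Set L) where
  b : L
  A : Set L
  sub : A ⊆ Iio b
  unb : ∀ c, ∃ x, c < x ∧ ∀ j < b, (x ∈ T j ↔ j ∈ A)

instance {L : Type} [LinearOrder L] (T : L → Set L) : PartialOrder (Node T) where
  le s t := s.b ≤ t.b ∧ s.A = t.A ∩ Iio s.b
  le_refl s := ⟨le_rfl, (inter_eq_left.2 s.sub).symm⟩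
  le_trans s t u h h' := ⟨h.1.trans h'.1, by
    rw [h.2, h'.2, inter_assoc, inter_eq_right.2 (Iio_subset_Iio h.1)]⟩
  le_antisymm s t h h' := by
    have h1 : s.b = t.b := le_antisymm h.1 h'.1
    have h2 : s.A = t.A := by
      rw [h.2, h1]
      exact inter_eq_left.2 t.sub
    cases s
    cases t
    simp only at h1 h2
    subst h1
    subst h2
    rfl

theorem Node.le_def {L : Type} [LinearOrder L] {T : L → Set L} {s t : Node T} :
    s ≤ t ↔ s.b ≤ t.b ∧ s.A = t.A ∩ Iio s.b := Iff.rfl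

theorem Node.lt_iff {L : Type} [LinearOrder L] {T : L → Set L} {s t : Node T} :
    s < t ↔ s.b < t.b ∧ s.A = t.A ∩ Iio s.b := by
  constructor
  · intro h
    refine ⟨lt_of_le_of_ne h.le.1 fun h1 => h.ne ?_, h.le.2⟩
    refine le_antisymm h.le ⟨h1.symm.le, ?_⟩
    have h2 := h.le.2
    rw [h1, inter_eq_left.2 t.sub] at h2
    rw [h2, inter_eq_left.2 t.sub]
  · intro h
    refine lt_of_le_of_ne ⟨h.1.le, h.2⟩ fun h1 => ?_
    rw [h1] at h
    exact lt_irrefl _ h.1

/-- Weakly compact cardinals have the filter property. -/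
theorem IsWeaklyCompact.fp {κ : Cardinal.{0}} (h : IsWeaklyCompact κ) : FP κ.ord.ToType := by
  classical
  obtain ⟨hκ0, hreg, hsl, htp⟩ := h
  intro T
  have hpos : Nonempty κ.ord.ToType := by
    rw [← Cardinal.mk_ne_zero_iff, Cardinal.mk_toType, Cardinal.card_ord]
    exact (Cardinal.aleph0_pos.trans hκ0).ne'
  have htree : IsKTree κ (Node T) fun t => t.b := by
    refine ⟨fun s t h => (Node.lt_iff.1 h).1, fun t β hβ => ?_, fun s s' t h h' => ?_, fun β => ?_,
      fun β => ?_⟩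
    · refine ⟨⟨β, t.A ∩ Iio β, inter_subset_right, fun c => ?_⟩, Node.lt_iff.2 ⟨hβ, rfl⟩, rfl⟩
      obtain ⟨x, hx, h1⟩ := t.unb c
      refine ⟨x, hx, fun j hj => ?_⟩
      rw [h1 j (hj.trans hβ)]
      exact ⟨fun h => ⟨h, hj⟩, fun h => h.1⟩
    · have h1 := (Node.lt_iff.1 h).2
      have h2 := (Node.lt_iff.1 h').2
      rcases le_total s.b s'.b with h3 | h3
      · refine Or.inl ⟨h3, ?_⟩
        rw [h1, h2, inter_assoc, inter_eq_right.2 (Iio_subset_Iio h3)]
      · refine Or.inr ⟨h3, ?_⟩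
        rw [h1, h2, inter_assoc, inter_eq_right.2 (Iio_subset_Iio h3)]
    · by_contra hcon
      push Not at hcon
      have h1 : ∀ A : Set (Iio β), ∃ c, ∀ x, c < x → ¬ ∀ j : Iio β, (x ∈ T j.1 ↔ j ∈ A) := by
        intro A
        by_contra h2
        push Not at h2
        refine hcon ⟨β, Subtype.val '' A, ?_, fun c => ?_⟩ rfl
        · rintro _ ⟨j, _, rfl⟩
          exact j.2
        · obtain ⟨x, hx, h3⟩ := h2 c
          refine ⟨x, hx, fun j hj => ?_⟩
          have h5 := h3 ⟨j, hj⟩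
          constructor
          · intro h4
            exact ⟨⟨j, hj⟩, h5.1 h4, rfl⟩
          · rintro ⟨j', hj', h4⟩
            have h6 : j' = ⟨j, hj⟩ := Subtype.ext h4
            exact h5.2 (h6 ▸ hj')
      choose c hc using h1
      obtain ⟨d, hd⟩ := regular_bdd hreg (by
        rw [Cardinal.mk_set]
        exact hsl.isStrongPrelimit (Cardinal.mk_Iio_toType_ord_lt β)) c
      obtain ⟨x, hx⟩ := regular_bdd hreg (ι := Unit) (by
        rw [Cardinal.mk_unit]; exact Cardinal.one_lt_aleph0.trans hκ0) fun _ => d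
      exact hc {j | x ∈ T j.1} x ((hd _).trans (hx ())) fun j => Iff.rfl
    · refine lt_of_le_of_lt ?_ (hsl.isStrongPrelimit (Cardinal.mk_Iio_toType_ord_lt β))
      rw [← Cardinal.mk_set]
      refine Cardinal.mk_le_of_injective
        (f := fun t : {t : Node T | t.b = β} => {j : Iio β | j.1 ∈ t.1.A}) ?_
      rintro ⟨s, hs⟩ ⟨t, ht⟩ hst
      apply Subtype.ext
      show s = t
      have hs' : s.b = β := hs
      have ht' : t.b = β := ht
      have hA : s.A = t.A := by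
        ext j
        constructor
        · intro hj
          have hjβ : j < β := hs' ▸ s.sub hj
          have h1 : (⟨j, hjβ⟩ : Iio β) ∈ {j : Iio β | j.1 ∈ s.A} := hj
          rw [show {j : Iio β | j.1 ∈ s.A} = {j : Iio β | j.1 ∈ t.A} from hst] at h1
          exact h1
        · intro hj
          have hjβ : j < β := ht' ▸ t.sub hj
          have h1 : (⟨j, hjβ⟩ : Iio β) ∈ {j : Iio β | j.1 ∈ t.A} := hj
          rw [← show {j : Iio β | j.1 ∈ s.A} = {j : Iio β | j.1 ∈ t.A} from hst] at h1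
          exact h1
      refine le_antisymm (Node.le_def.2 ⟨(hs'.trans ht'.symm).le, ?_⟩)
        (Node.le_def.2 ⟨(ht'.trans hs'.symm).le, ?_⟩)
      · rw [hA, inter_eq_left.2]
        rw [hs', ← ht']
        exact t.sub
      · rw [← hA, inter_eq_left.2]
        rw [ht', ← hs']
        exact s.sub
  obtain ⟨br, hbr, hbrh⟩ := htp (Node T) inferInstance (fun t => t.b) htree
  let A : Set κ.ord.ToType := {j | ∃ β, j < β ∧ j ∈ (br β).A}
  have hA : ∀ β, ∀ j < β, (j ∈ (br β).A ↔ j ∈ A) := by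
    intro β j hj
    constructor
    · intro h
      exact ⟨β, hj, h⟩
    · rintro ⟨β', hj', h⟩
      rcases le_total β β' with h1 | h1
      · have h2 := (hbr.monotone h1).2
        rw [h2]
        refine ⟨h, ?_⟩
        show j < (br β).b
        rw [hbrh]; exact hj
      · have h2 := (hbr.monotone h1).2
        rw [h2] at h
        exact h.1
  have hunb : ∀ β c, ∃ x, c < x ∧ ∀ j < β, (x ∈ T j ↔ j ∈ A) := by
    intro β c
    obtain ⟨x, hx, h1⟩ := (br β).unb c
    refine ⟨x, hx, fun j hj => ?_⟩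
    rw [← hA β j hj]
    exact h1 j (by rw [hbrh]; exact hj)
  let B : κ.ord.ToType → κ.ord.ToType → Set κ.ord.ToType := fun β γ =>
    {ξ | γ < ξ ∧ ∀ j < β, (ξ ∈ T j ↔ j ∈ A)}
  let D : Filter κ.ord.ToType :=
    { sets := {s | ∃ β γ, B β γ ⊆ s}
      univ_sets := ⟨hpos.some, hpos.some, subset_univ _⟩
      sets_of_superset := by
        rintro s t ⟨β, γ, hs⟩ hst
        exact ⟨β, γ, hs.trans hst⟩
      inter_sets := by
        rintro s t ⟨β, γ, hs⟩ ⟨β', γ', ht⟩
        refine ⟨max β β', max γ γ', fun ξ hξ => ⟨hs ?_, ht ?_⟩⟩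
        · exact ⟨(le_max_left _ _).trans_lt hξ.1, fun j hj => hξ.2 j (hj.trans_le (le_max_left _ _))⟩
        · exact ⟨(le_max_right _ _).trans_lt hξ.1,
            fun j hj => hξ.2 j (hj.trans_le (le_max_right _ _))⟩ }
  have hsucc : ∀ j : κ.ord.ToType, ∃ k, j < k := fun j => by
    obtain ⟨x, hx⟩ := regular_bdd hreg (ι := Unit) (by
        rw [Cardinal.mk_unit]; exact Cardinal.one_lt_aleph0.trans hκ0) fun _ => j
    exact ⟨x, hx ()⟩
  refine ⟨D, ?_, fun b => ⟨b, b, fun ξ hξ => hξ.1⟩, fun j => ?_, fun b s hs => ?_⟩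
  · refine Filter.neBot_iff.2 fun hbot => ?_
    have h1 : (∅ : Set κ.ord.ToType) ∈ D := by rw [hbot]; trivial
    obtain ⟨β, γ, hs⟩ := h1
    obtain ⟨x, hx1, hx2⟩ := hunb β γ
    exact hs (show x ∈ B β γ from ⟨hx1, hx2⟩)
  · obtain ⟨k, hk⟩ := hsucc j
    by_cases hj : j ∈ A
    · exact Or.inl ⟨k, k, fun ξ hξ => (hξ.2 j hk).2 hj⟩
    · exact Or.inr ⟨k, k, fun ξ hξ hξ' => hj ((hξ.2 j hk).1 hξ')⟩
  · have h1 : ∀ i : Iio b, ∃ β γ, B β γ ⊆ s i.1 := fun i => hs i.1 i.2
    choose β γ hβγ using h1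
    obtain ⟨β', hβ'⟩ := regular_bdd hreg (Cardinal.mk_Iio_toType_ord_lt b) β
    obtain ⟨γ', hγ'⟩ := regular_bdd hreg (Cardinal.mk_Iio_toType_ord_lt b) γ
    refine ⟨β', γ', fun ξ hξ i hi => hβγ ⟨i, hi⟩ ⟨(hγ' _).trans hξ.1, fun j hj => ?_⟩⟩
    exact hξ.2 j (hj.trans (hβ' _))

/-- If there is a weakly compact cardinal, then there is an uncountable cardinal with the filter
property which carries no countably complete nonprincipal ultrafilter. -/
theorem exists_fp (h : ∃ κ : Cardinal.{0}, IsWeaklyCompact κ) :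
    ∃ κ : Cardinal.{0}, ℵ₀ < κ ∧ FP κ.ord.ToType ∧
      ∀ U : Ultrafilter κ.ord.ToType, (∀ b, {b} ∉ U) →
        ¬ ∀ s : ℕ → Set κ.ord.ToType, (∀ n, s n ∈ U) → (⋂ n, s n) ∈ U := by
  obtain ⟨κ0, hκ0⟩ := h
  let S : Set Ordinal.{0} := {o | Ordinal.omega0 < o ∧ FP o.ToType}
  have hS : S.Nonempty := ⟨κ0.ord, by
    rw [← Cardinal.ord_aleph0]; exact Cardinal.ord_lt_ord.2 hκ0.1, hκ0.fp⟩
  have h1 : sInf S ∈ S := csInf_mem hS
  have h2 : sInf S = (sInf S).card.ord := h1.2.eq_ord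
  refine ⟨(sInf S).card, ?_, ?_, fun U hU hσ => ?_⟩
  · rw [← Cardinal.ord_lt_ord, ← h2, Cardinal.ord_aleph0]
    exact h1.1
  · rw [← h2]; exact h1.2
  · refine no_ult (o := (sInf S).card.ord) ?_ (fun o' ho' hω hFP => ?_) U hU hσ
    · rw [← h2]; exact h1.1
    · rw [← h2] at ho'
      exact notMem_of_lt_csInf' ho' ⟨hω, hFP⟩

end Pool.Agent.H637.SqC
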